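import Pool.Agent.Lib.TA.Defs

/-!
# PROJECT ALL: common definitions

Frames with `D` free parameters of a real valuation `v` of a big field `Ω`, refinements, monomials,
content and order, integral closures localised at the centre, the decomposition group of the
centre, and the statements of the induction.  Everything happens in one big field `Ω`.
-/

set_option autoImplicit false

namespace Pool.Agent.ALL

open Pool.Agent.H15JM (RVal)
open Pool.Agent.LU1 (VPos locv FracIs fixO)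

universe u

section

variable {k Ω : Type u} [Field k] [Field Ω] [Algebra k Ω]

/-! ## Frames -/

/-- A frame with `D` free parameters. `χ` matters only on `Γ`. (`LU1.BF` is the case `D = 1`.) -/
structure FR (k : Type u) {Ω : Type u} [Field k] [Field Ω] [Algebra k Ω] (v : RVal Ω)
    (D : ℕ) where
  /-- the group of exponents -/
  Γ : AddSubgroup ℝ
  fg : Γ.FG
  full : ∀ g : Ω, g ≠ 0 → ∃ m : ℕ, 0 < m ∧ (m : ℝ) * v g ∈ Γ
  /-- the monomials -/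
  χ : ℝ → Ω
  χ_ne : ∀ γ ∈ Γ, χ γ ≠ 0
  χ_add : ∀ γ ∈ Γ, ∀ δ ∈ Γ, χ (γ + δ) = χ γ * χ δ
  χ_val : ∀ γ ∈ Γ, v (χ γ) = γ
  /-- the free parameters -/
  y : Fin D → Ω
  y_ne : ∀ i, y i ≠ 0
  y_pos : ∀ i, 0 < v (y i)
  /-- the ring -/
  R : Subalgebra k Ω
  nonneg : ∀ f ∈ R, v.Ge 0 f
  loc : ∀ f ∈ R, f ≠ 0 → v f = 0 → f⁻¹ ∈ R
  χ_mem : ∀ γ ∈ Γ, 0 ≤ γ → χ γ ∈ R
  y_mem : ∀ i, y i ∈ R
  fgen : ∃ F : Finset Ω, R = locv v (Algebra.adjoin k ((F : Set Ω) ∪ χ '' {γ | γ ∈ Γ ∧ 0 ≤ γ}))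
  gen : ∀ f ∈ R, VPos v f → ∃ γ ∈ Γ, 0 < γ ∧ ∃ a ∈ R, ∃ b : Fin D → Ω, (∀ i, b i ∈ R) ∧
    f = χ γ * a + ∑ i, y i * b i
  alg : ∀ g : Ω, IsAlgebraic R g

variable {v : RVal Ω} {D : ℕ}

/-- The frame is rational: its ring is the localisation of `k[χ(Γ ≥ 0), y]`. -/
def FR.Rat (F : FR k v D) : Prop :=
  F.R = locv v (Algebra.adjoin k (F.χ '' {γ | γ ∈ F.Γ ∧ 0 ≤ γ} ∪ Set.range F.y))

/-- `f` is a unit of `F.R`. -/
def FR.Un (F : FR k v D) (f : Ω) : Prop := f ∈ F.R ∧ f ≠ 0 ∧ v f = 0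

/-- `f` is a monomial times a unit. -/
def FR.Mono (F : FR k v D) (f : Ω) : Prop := f ≠ 0 ∧ v f ∈ F.Γ ∧ F.Un (f / F.χ (v f))

/-- `F'` is a refinement of `F` (of the same field). -/
structure FR.Le (F F' : FR k v D) : Prop where
  le : F.R ≤ F'.R
  Γ_le : ∀ γ ∈ F.Γ, γ ∈ F'.Γ
  χ_un : ∀ γ ∈ F.Γ, F'.Un (F.χ γ / F'.χ γ)
  den : ∀ f ∈ F'.R, ∃ a ∈ F.R, ∃ b ∈ F.R, F'.Mono b ∧ f = a / b

/-- `F₁` has the same parameters as `F` and a bigger ring. -/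
structure FR.Same (F F₁ : FR k v D) : Prop where
  Γ_eq : F₁.Γ = F.Γ
  χ_eq : ∀ γ ∈ F.Γ, F₁.χ γ = F.χ γ
  y_eq : F₁.y = F.y
  le : F.R ≤ F₁.R

/-- `(y)^M R`, as a `k`-subspace of `Ω`. -/
def FR.YI (F : FR k v D) (M : ℕ) : Submodule k Ω :=
  Submodule.span k (Set.range F.y) ^ M * F.R.toSubmodule

/-- `f = χ(κ) (P(y) + e + χ(γ) a)`, `P ≠ 0` a form of degree `M` over `k`, `e ∈ (y)^(M+1) R`,
`γ > 0`, `a ∈ R`: the content of `f` is `κ`, its order `M`. -/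
def FR.Ord (F : FR k v D) (f : Ω) (κ : ℝ) (M : ℕ) : Prop :=
  κ ∈ F.Γ ∧ ∃ P : MvPolynomial (Fin D) k, P.IsHomogeneous M ∧ P ≠ 0 ∧
    ∃ e ∈ F.YI (M + 1), ∃ γ ∈ F.Γ, 0 < γ ∧ ∃ a ∈ F.R,
      f = F.χ κ * (MvPolynomial.aeval F.y P + e + F.χ γ * a)

/-- A derivation of `E` which is a `k`-linear combination of the logarithmic derivations dual to
`dlog χ, dy`. -/
def FR.LogD (F : FR k v D) {E : IntermediateField k Ω} (d : Derivation k E E) : Prop :=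
  (∀ γ ∈ F.Γ, ∃ c : k, ∀ e : E, (e : Ω) = F.χ γ → (d e : Ω) = algebraMap k Ω c * F.χ γ) ∧
  ∀ j, ∃ c : k, ∀ e : E, (e : Ω) = F.y j → (d e : Ω) = algebraMap k Ω c

/-! ## Integral closures localised at the centre -/

/-- The elements of `E` integral over `R`. -/
def icl (R : Subalgebra k Ω) (E : IntermediateField k Ω) : Subalgebra k Ω where
  carrier := {a | a ∈ E ∧ IsIntegral R a}
  mul_mem' := fun ha hb => ⟨mul_mem ha.1 hb.1, ha.2.mul hb.2⟩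
  add_mem' := fun ha hb => ⟨add_mem ha.1 hb.1, ha.2.add hb.2⟩
  algebraMap_mem' := fun c => ⟨E.algebraMap_mem c, by
    have h : algebraMap k Ω c = algebraMap R Ω (algebraMap k R c) := by
      rw [← IsScalarTower.algebraMap_apply]
    rw [h]
    exact isIntegral_algebraMap⟩

/-- The localisation at the centre of `v` of the integral closure of `R` in `E`. -/
def ICl (v : RVal Ω) (R : Subalgebra k Ω) (E : IntermediateField k Ω) : Subalgebra k Ω :=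
  locv v (icl R E)

/-- `f = χ(v f) u`, `u` a unit of `S`. -/
def FR.MonoIn (F : FR k v D) (S : Subalgebra k Ω) (f : Ω) : Prop :=
  f ≠ 0 ∧ v f ∈ F.Γ ∧ f / F.χ (v f) ∈ S

/-- The decomposition group of the centre of `v` on the integral closure of `R` in `N`. -/
def decP (v : RVal Ω) (R : Subalgebra k Ω) (K : IntermediateField k Ω)
    (N : IntermediateField K Ω) : Subgroup (N ≃ₐ[K] N) where
  carrier := {σ | ∀ a : N, IsIntegral R (a : Ω) → IsIntegral R (σ a : Ω) ∧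
    IsIntegral R (σ⁻¹ a : Ω) ∧ (VPos v (a : Ω) ↔ VPos v (σ a : Ω))}
  mul_mem' := by
    intro σ τ hσ hτ a ha
    refine ⟨?_, ?_, ?_⟩
    · rw [AlgEquiv.mul_apply]
      exact (hσ _ (hτ a ha).1).1
    · rw [mul_inv_rev, AlgEquiv.mul_apply]
      exact (hτ _ (hσ a ha).2.1).2.1
    · rw [AlgEquiv.mul_apply]
      exact (hτ a ha).2.2.trans (hσ _ (hτ a ha).1).2.2
  one_mem' := fun a ha => ⟨ha, by rw [inv_one]; exact ha, Iff.rfl⟩
  inv_mem' := by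
    intro σ hσ a ha
    refine ⟨(hσ a ha).2.1, ?_, ?_⟩
    · rw [inv_inv]
      exact (hσ a ha).1
    · have h := (hσ _ (hσ a ha).2.1).2.2
      rw [← AlgEquiv.mul_apply, mul_inv_cancel, AlgEquiv.one_apply] at h
      exact h.symm

/-! ## Output of the blocks 1 - 4 -/

/-- What sections 1 - 4 give for a finite set `Z` of generators of `E`: `F` is a rational frame of
`K ≤ E`, `N / K` a finite Galois extension containing `E = N^H`. -/
structure XD (v : RVal Ω) {D : ℕ} (p : ℕ) (E : IntermediateField k Ω) (Z : Finset Ω)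
    (F : FR k v D) (K : IntermediateField k Ω) (N : IntermediateField K Ω)
    (H : Subgroup (N ≃ₐ[K] N)) (Q Q' : Ω) : Prop where
  rat : F.Rat
  frac : FracIs F.R K
  le : K ≤ E
  fix : fixO K N H = E
  /-- (X1) -/
  idx : H.relIndex (decP v F.R K N) < p
  /-- (X2) -/
  mono : ∀ z ∈ Z, F.MonoIn (ICl v F.R E) z
  /-- (X2') -/
  den : ∀ f ∈ ICl v F.R E, ∃ a ∈ Algebra.adjoin k (Z : Set Ω), ∃ b ∈ Algebra.adjoin k (Z : Set Ω),
    F.MonoIn (ICl v F.R E) b ∧ f = a / b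
  Q_mem : Q ∈ E
  Q_ne : Q ≠ 0
  Q_int : ∃ γ ∈ F.Γ, F.χ γ * Q ∈ ICl v F.R E
  /-- (X3) -/
  der : ∀ d : Derivation k E E, F.LogD d → ∀ f : E, (f : Ω) ∈ ICl v F.R E →
    ∃ γ ∈ F.Γ, F.χ γ * (Q * (d f : Ω)) ∈ ICl v F.R E
  Q'_mem : Q' ∈ N
  Q'_ne : Q' ≠ 0
  Q'_int : ∃ γ ∈ F.Γ, F.χ γ * Q' ∈ ICl v F.R (N.restrictScalars k)
  /-- (X4) -/
  ord : ∃ F₁ : FR k v D, F.Same F₁ ∧ F₁.R ≤ ICl v F.R (N.restrictScalars k) ∧
    ∃ κ, ∃ M < p, F₁.Ord (Q * Q') κ M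

/-! ## The statements of the induction -/

/-- Embedded local uniformization of `E`, with control of the denominators. -/
def Emb (v : RVal Ω) (D : ℕ) (E : IntermediateField k Ω) : Prop :=
  ∀ Z : Finset Ω, (∀ z ∈ Z, z ≠ 0) → IntermediateField.adjoin k (Z : Set Ω) = E →
    ∃ C : FR k v D, FracIs C.R E ∧ (∀ z ∈ Z, C.Mono z) ∧
      ∀ f ∈ C.R, ∃ a ∈ Algebra.adjoin k (Z : Set Ω), ∃ b ∈ Algebra.adjoin k (Z : Set Ω),
        C.Mono b ∧ f = a / b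

end

/-- `Emb` for all fields of transcendence degree `n`. -/
def EmbAll (k : Type u) [Field k] (n : ℕ) : Prop :=
  ∀ (Ω : Type u) [Field Ω] [Algebra k Ω] [IsAlgClosed Ω] (v : RVal Ω) (r D : ℕ),
    TA.CtxR k v n r → 0 < r → n = r + D → ∀ E : IntermediateField k Ω,
      (∃ S : Finset Ω, E = IntermediateField.adjoin k (S : Set Ω)) →
      (∀ g : Ω, IsAlgebraic E g) → Emb v D E

end Pool.Agent.ALL
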