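import Mathlib

/-!
# Modules generated by their `q`-th powers are free

`A` a local ring whose maximal ideal has `⋂ m ^ N = 0`, generated over its `q`-th powers by `e b`.
`M` a finite `A`-module with a `q`-linear map `φ`, generated by the image of `φ`, such that the
`e b` are independent over the `φ (m)`: then `M` is free. In rank one: `M` is principal.
-/

set_option autoImplicit false

namespace Pool.Agent.ALLZ

open IsLocalRing

section

variable {A : Type*} [CommRing A] [IsLocalRing A] {M : Type*} [AddCommGroup M] [Module A M]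

/-- minimal generators have syzygies in the maximal ideal -/
theorem exists_min_gen [Module.Finite A M] : ∃ (s : ℕ) (g : Fin s → M),
    Submodule.span A (Set.range g) = ⊤ ∧
      ∀ z : Fin s → A, ∑ i, z i • g i = 0 → ∀ i, z i ∈ maximalIdeal A := by
  classical
  have hex : ∃ s : ℕ, ∃ g : Fin s → M, Submodule.span A (Set.range g) = ⊤ := by
    obtain ⟨n, g, hg⟩ := Module.Finite.exists_fin (R := A) (M := M)
    exact ⟨n, g, hg⟩
  obtain ⟨g, hg⟩ := Nat.find_spec hex
  refine ⟨Nat.find hex, g, hg, fun z hz i => ?_⟩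
  by_contra hi
  have hu : IsUnit (z i) := by
    by_contra h
    exact hi ((mem_maximalIdeal _).2 h)
  obtain ⟨u, hu⟩ := hu
  obtain ⟨s', hs'⟩ : ∃ s', Nat.find hex = s' + 1 :=
    Nat.exists_eq_succ_of_ne_zero (by rintro h; exact absurd i.2 (by omega))
  have hmin := Nat.find_min hex (m := s') (by omega)
  apply hmin
  -- transport to `Fin (s' + 1)`
  have key : ∀ (n : ℕ) (_ : n = s' + 1) (g : Fin n → M) (z : Fin n → A) (i : Fin n),
      Submodule.span A (Set.range g) = ⊤ → ∑ i, z i • g i = 0 → z i = u →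
      ∃ g' : Fin s' → M, Submodule.span A (Set.range g') = ⊤ := by
    rintro n rfl g z i hg hz hi
    refine ⟨fun j => g (i.succAbove j), ?_⟩
    rw [Fin.sum_univ_succAbove _ i, hi] at hz
    have h1 : g i ∈ Submodule.span A (Set.range fun j => g (i.succAbove j)) := by
      have h2 : g i = -((u⁻¹ : Aˣ) : A) • ∑ j, z (i.succAbove j) • g (i.succAbove j) := by
        have h3 : ((u⁻¹ : Aˣ) : A) • ((u : A) • g i +
            ∑ j, z (i.succAbove j) • g (i.succAbove j)) = 0 := by rw [hz, smul_zero]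
        rw [smul_add, smul_smul, Units.inv_mul, one_smul] at h3
        rw [neg_smul]
        exact eq_neg_of_add_eq_zero_left h3
      rw [h2]
      exact Submodule.smul_mem _ _ (Submodule.sum_mem _ fun j _ =>
        Submodule.smul_mem _ _ (Submodule.subset_span ⟨j, rfl⟩))
    rw [← top_le_iff, ← hg, Submodule.span_le]
    rintro _ ⟨j, rfl⟩
    rcases Fin.eq_self_or_eq_succAbove i j with rfl | ⟨j', rfl⟩
    · exact h1
    · exact Submodule.subset_span ⟨j', rfl⟩
  exact key _ hs' g z i hg hz hu.symm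

variable {q : ℕ} {φ : M → M} {ι : Type*} [Fintype ι] {e : ι → A}

omit [IsLocalRing A] in
theorem phi_sum (h0 : φ 0 = 0) (hadd : ∀ x y, φ (x + y) = φ x + φ y)
    (hsm : ∀ (a : A) x, φ (a • x) = a ^ q • φ x) {s : ℕ} (g : Fin s → M) (c : Fin s → A)
    (T : Finset (Fin s)) : φ (∑ i ∈ T, c i • g i) = ∑ i ∈ T, c i ^ q • φ (g i) := by
  classical
  induction T using Finset.induction_on with
  | empty => simpa using h0
  | insert i T hi ih => rw [Finset.sum_insert hi, Finset.sum_insert hi, hadd, hsm, ih]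

/-- the syzygies of minimal generators lie in all powers of the maximal ideal -/
theorem syz_mem_pow (hq : 2 ≤ q) (hadd : ∀ x y, φ (x + y) = φ x + φ y)
    (hsm : ∀ (a : A) x, φ (a • x) = a ^ q • φ x)
    (hspan : Submodule.span A (Set.range φ) = ⊤)
    (hA : ∀ a : A, ∃ c : ι → A, a = ∑ b, e b * c b ^ q)
    (hind : ∀ m : ι → M, ∑ b, e b • φ (m b) = 0 → ∀ b, m b = 0)
    {s : ℕ} {g : Fin s → M} (hg : Submodule.span A (Set.range g) = ⊤)
    (hz : ∀ z : Fin s → A, ∑ i, z i • g i = 0 → ∀ i, z i ∈ maximalIdeal A) :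
    ∀ (t : ℕ) (z : Fin s → A), ∑ i, z i • g i = 0 → ∀ i, z i ∈ maximalIdeal A ^ t := by
  classical
  have h0 : φ 0 = 0 := by
    have := hsm 0 0
    rwa [zero_smul, zero_pow (by omega), zero_smul] at this
  -- the matrix `E`: `φ (g j) = ∑ E j i • g i`
  have hE : ∀ j, ∃ r : Fin s → A, φ (g j) = ∑ i, r i • g i := fun j => by
    have : φ (g j) ∈ Submodule.span A (Set.range g) := by rw [hg]; trivial
    obtain ⟨r, hr⟩ := (Submodule.mem_span_range_iff_exists_fun A).1 this
    exact ⟨r, hr.symm⟩
  choose E hE using hE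
  -- the `φ (g j)` generate
  have hφg : Submodule.span A (Set.range fun j => φ (g j)) = ⊤ := by
    rw [← top_le_iff, ← hspan, Submodule.span_le]
    rintro _ ⟨x, rfl⟩
    have hx : x ∈ Submodule.span A (Set.range g) := by rw [hg]; trivial
    obtain ⟨r, hr⟩ := (Submodule.mem_span_range_iff_exists_fun A).1 hx
    rw [← hr, phi_sum h0 hadd hsm]
    exact Submodule.sum_mem _ fun j _ => Submodule.smul_mem _ _ (Submodule.subset_span ⟨j, rfl⟩)
  have hD : ∀ i, ∃ r : Fin s → A, g i = ∑ j, r j • φ (g j) := fun i => by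
    have : g i ∈ Submodule.span A (Set.range fun j => φ (g j)) := by rw [hφg]; trivial
    obtain ⟨r, hr⟩ := (Submodule.mem_span_range_iff_exists_fun A).1 this
    exact ⟨r, hr.symm⟩
  choose D hD using hD
  -- `D E - 1` has entries in the maximal ideal
  have hDE : ∀ i k, (Matrix.of D * Matrix.of E) i k - (1 : Matrix (Fin s) (Fin s) A) i k ∈
      maximalIdeal A := by
    intro i
    refine hz _ ?_
    have h1 : ∑ k, (Matrix.of D * Matrix.of E) i k • g k = g i := by
      simp only [Matrix.mul_apply, Matrix.of_apply]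
      calc ∑ k, (∑ j, D i j * E j k) • g k = ∑ j, D i j • ∑ k, E j k • g k := by
            simp_rw [Finset.smul_sum, Finset.sum_smul, smul_smul]
            exact Finset.sum_comm
        _ = g i := by simp_rw [← hE]; exact (hD i).symm
    have h2 : ∑ k, (1 : Matrix (Fin s) (Fin s) A) i k • g k = g i := by
      simp [Matrix.one_apply]
    simp_rw [sub_smul]
    rw [Finset.sum_sub_distrib, h1, h2, sub_self]
  have hdet : IsUnit (Matrix.of D * Matrix.of E).det := by
    have h1 : (Matrix.of D * Matrix.of E).map (residue A) = 1 := by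
      ext i k
      have h2 := hDE i k
      rw [← residue_eq_zero_iff, map_sub, sub_eq_zero] at h2
      rw [Matrix.map_apply, h2]
      by_cases hik : i = k
      · subst hik; simp
      · simp [hik]
    have h3 : residue A (Matrix.of D * Matrix.of E).det = 1 := by
      rw [RingHom.map_det, RingHom.mapMatrix_apply, h1, Matrix.det_one]
    by_contra h4
    rw [← mem_nonunits_iff, ← mem_maximalIdeal, ← residue_eq_zero_iff, h3] at h4
    exact one_ne_zero h4
  have hdD : IsUnit (Matrix.of D).det := by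
    rw [Matrix.det_mul] at hdet
    exact isUnit_of_mul_isUnit_left hdet
  -- the step
  have step : ∀ t, (∀ z : Fin s → A, ∑ i, z i • g i = 0 → ∀ i, z i ∈ maximalIdeal A ^ t) →
      ∀ z : Fin s → A, ∑ i, z i • g i = 0 → ∀ i, z i ∈ maximalIdeal A ^ (q * t) := by
    intro t ht z hz0
    -- `zD`
    have h1 : ∑ j, (Matrix.vecMul z (Matrix.of D)) j • φ (g j) = 0 := by
      rw [← hz0]
      simp only [Matrix.vecMul, dotProduct, Matrix.of_apply]
      calc ∑ j, (∑ i, z i * D i j) • φ (g j) = ∑ i, z i • ∑ j, D i j • φ (g j) := by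
            simp_rw [Finset.smul_sum, Finset.sum_smul, smul_smul]
            exact Finset.sum_comm
        _ = ∑ i, z i • g i := by simp_rw [← hD]
    choose c hc using fun j => hA (Matrix.vecMul z (Matrix.of D) j)
    have h2 : ∀ b, ∑ j, c j b • g j = 0 := by
      refine hind _ ?_
      rw [← h1]
      calc ∑ b, e b • φ (∑ j, c j b • g j) = ∑ b, ∑ j, (e b * c j b ^ q) • φ (g j) := by
            refine Finset.sum_congr rfl fun b _ => ?_
            rw [phi_sum h0 hadd hsm, Finset.smul_sum]
            exact Finset.sum_congr rfl fun j _ => by rw [smul_smul]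
        _ = ∑ j, (∑ b, e b * c j b ^ q) • φ (g j) := by
            rw [Finset.sum_comm]
            exact Finset.sum_congr rfl fun j _ => by rw [Finset.sum_smul]
        _ = _ := Finset.sum_congr rfl fun j _ => by rw [← hc j]
    have h3 : ∀ j, Matrix.vecMul z (Matrix.of D) j ∈ maximalIdeal A ^ (q * t) := by
      intro j
      rw [hc j]
      refine Ideal.sum_mem _ fun b _ => Ideal.mul_mem_left _ _ ?_
      have h4 := Ideal.pow_mem_pow (ht (fun j => c j b) (h2 b) j) q
      rwa [← pow_mul, mul_comm] at h4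
    have h5 : Matrix.vecMul (Matrix.vecMul z (Matrix.of D)) (Matrix.of D)⁻¹ = z := by
      rw [Matrix.vecMul_vecMul, Matrix.mul_nonsing_inv _ hdD, Matrix.vecMul_one]
    intro i
    rw [← h5]
    simp only [Matrix.vecMul, dotProduct]
    exact Ideal.sum_mem _ fun j _ => Ideal.mul_mem_right _ _ (h3 j)
  intro t
  induction t using Nat.strong_induction_on with
  | _ t ih =>
    rcases Nat.lt_or_ge t 2 with h | h
    · intro z h1 i
      interval_cases t
      · simp
      · rw [pow_one]; exact hz z h1 i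
    · intro z h1 i
      have h2 := step (t - 1) (ih (t - 1) (by omega)) z h1 i
      refine Ideal.pow_le_pow_right ?_ h2
      calc t ≤ 2 * (t - 1) := by omega
        _ ≤ q * (t - 1) := Nat.mul_le_mul_right _ hq

/-- **a module generated by its `q`-th powers is free** -/
theorem exists_basis (hsep : ∀ a : A, (∀ N : ℕ, a ∈ maximalIdeal A ^ N) → a = 0)
    [Module.Finite A M] (hq : 2 ≤ q) (hadd : ∀ x y, φ (x + y) = φ x + φ y)
    (hsm : ∀ (a : A) x, φ (a • x) = a ^ q • φ x)
    (hspan : Submodule.span A (Set.range φ) = ⊤)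
    (hA : ∀ a : A, ∃ c : ι → A, a = ∑ b, e b * c b ^ q)
    (hind : ∀ m : ι → M, ∑ b, e b • φ (m b) = 0 → ∀ b, m b = 0) :
    ∃ (s : ℕ) (_ : Module.Basis (Fin s) A M), True := by
  obtain ⟨s, g, hg, hz⟩ := exists_min_gen (A := A) (M := M)
  have hli : LinearIndependent A g := by
    rw [Fintype.linearIndependent_iff]
    intro z h0 i
    exact hsep _ fun N => syz_mem_pow hq hadd hsm hspan hA hind hg hz N z h0 i
  exact ⟨s, Module.Basis.mk hli hg.ge, trivial⟩

end

/-- **rank one: a fractional ideal generated by `θ` times its `q`-th powers is principal** -/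
theorem principal_of_frob {A κ : Type*} [CommRing A] [IsDomain A] [IsLocalRing A] [Field κ]
    [Algebra A κ]
    (hsep : ∀ a : A, (∀ N : ℕ, a ∈ maximalIdeal A ^ N) → a = 0)
    {p : ℕ} [ExpChar κ p] {j : ℕ} (hq : 2 ≤ p ^ j) {ι : Type*} [Fintype ι] {e : ι → A}
    (hA : ∀ a : A, ∃ c : ι → A, a = ∑ b, e b * c b ^ (p ^ j))
    (hind : ∀ c : ι → κ, ∑ b, algebraMap A κ (e b) * c b ^ (p ^ j) = 0 → ∀ b, c b = 0)
    {M : Submodule A κ} (hfg : M.FG) (hM0 : M ≠ ⊥)
    (hrk : ∀ x ∈ M, ∀ y ∈ M, ∃ a b : A, (a ≠ 0 ∨ b ≠ 0) ∧ a • x + b • y = 0)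
    {θ : κ} (hθ0 : θ ≠ 0) (hθ : ∀ x ∈ M, θ * x ^ (p ^ j) ∈ M)
    (hM : ∀ x ∈ M, x ∈ Submodule.span A {w | ∃ y ∈ M, w = θ * y ^ (p ^ j)}) :
    ∃ g ∈ M, g ≠ 0 ∧ M = Submodule.span A {g} := by
  classical
  have : Module.Finite A M := Module.Finite.iff_fg.2 hfg
  let φ : M → M := fun x => ⟨θ * (x : κ) ^ (p ^ j), hθ x x.2⟩
  have hadd : ∀ x y, φ (x + y) = φ x + φ y := fun x y => by
    apply Subtype.ext
    change θ * ((x : κ) + y) ^ (p ^ j) = θ * (x : κ) ^ (p ^ j) + θ * (y : κ) ^ (p ^ j)
    rw [add_pow_expChar_pow, mul_add]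
  have hsm : ∀ (a : A) x, φ (a • x) = a ^ (p ^ j) • φ x := fun a x => by
    apply Subtype.ext
    change θ * (a • (x : κ)) ^ (p ^ j) = a ^ (p ^ j) • (θ * (x : κ) ^ (p ^ j))
    rw [Algebra.smul_def, Algebra.smul_def, mul_pow, map_pow]
    ring
  have hspan : Submodule.span A (Set.range φ) = ⊤ := by
    rw [← top_le_iff]
    rintro ⟨x, hx⟩ -
    have h1 := hM x hx
    have h2 : Submodule.span A {w | ∃ y ∈ M, w = θ * y ^ (p ^ j)} =
        (Submodule.span A (Set.range φ)).map M.subtype := by
      rw [Submodule.map_span]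
      congr 1
      ext w
      constructor
      · rintro ⟨y, hy, rfl⟩
        exact ⟨φ ⟨y, hy⟩, ⟨⟨y, hy⟩, rfl⟩, rfl⟩
      · rintro ⟨_, ⟨y, rfl⟩, rfl⟩
        exact ⟨y, y.2, rfl⟩
    rw [h2] at h1
    obtain ⟨y, hy, hyx⟩ := h1
    have : y = ⟨x, hx⟩ := Subtype.ext hyx
    rwa [this] at hy
  have hind' : ∀ m : ι → M, ∑ b, e b • φ (m b) = 0 → ∀ b, m b = 0 := by
    intro m hm b
    have h1 := congrArg (Subtype.val) hm
    rw [AddSubmonoidClass.coe_finset_sum] at h1
    have h2 : θ * ∑ b, algebraMap A κ (e b) * (m b : κ) ^ (p ^ j) = 0 := by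
      rw [Finset.mul_sum]
      refine (Finset.sum_congr rfl fun b _ => ?_).trans h1
      change _ = e b • (θ * (m b : κ) ^ (p ^ j))
      rw [Algebra.smul_def]
      ring
    exact Subtype.ext (hind _ ((mul_eq_zero.1 h2).resolve_left hθ0) b)
  obtain ⟨s, B, -⟩ := exists_basis (q := p ^ j) (φ := φ) hsep hq hadd hsm hspan hA hind'
  -- the rank is one
  have hs : s ≤ 1 := by
    by_contra hs
    push Not at hs
    let i : Fin s := ⟨0, by omega⟩
    let k : Fin s := ⟨1, by omega⟩
    have hik : i ≠ k := by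
      intro h
      have := congrArg Fin.val h
      simp [i, k] at this
    obtain ⟨a, b, hab, h0⟩ := hrk (B i) (B i).2 (B k) (B k).2
    have h1 : a • B i + b • B k = 0 := Subtype.ext h0
    have h2 := congrArg (fun v => B.repr v i) h1
    have h3 := congrArg (fun v => B.repr v k) h1
    simp [hik, hik.symm] at h2 h3
    rcases hab with h | h
    · exact h h2
    · exact h h3
  have hs1 : s = 1 := by
    rcases Nat.eq_zero_or_pos s with h | h
    · subst h
      exfalso
      apply hM0
      rw [Submodule.eq_bot_iff]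
      intro x hx
      have : (⟨x, hx⟩ : M) = 0 := by
        rw [← B.sum_repr ⟨x, hx⟩]
        simp
      exact congrArg Subtype.val this
    · omega
  subst hs1
  refine ⟨B 0, (B 0).2, fun h => ?_, ?_⟩
  · exact B.ne_zero 0 (Subtype.ext h)
  · apply le_antisymm
    · intro x hx
      rw [Submodule.mem_span_singleton]
      refine ⟨B.repr ⟨x, hx⟩ 0, ?_⟩
      have := B.sum_repr ⟨x, hx⟩
      rw [Fin.sum_univ_one] at this
      exact congrArg Subtype.val this
    · rw [Submodule.span_singleton_le_iff_mem]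
      exact (B 0).2

end Pool.Agent.ALLZ
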