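import Pool.Agent.Lib.ALL.J4b
import Pool.Agent.Lib.TA.ChoiceY

/-!
# ALLDEFECT, block X: goodness of the projection is open along the torus

`c ↦ c τ^a` moves the coordinates `y_i = ∑_j c_ij (b_j - 1)`; the conditions (G1), (G2) hold
outside the zeros of a Laurent polynomial which does not vanish at `τ = 1`.
-/

set_option autoImplicit false

namespace Pool.Agent.ALL

open Pool.Agent.H15JM (RVal)
open Pool.Agent.LU1 (VPos)
open Pool.Agent.LU3 (Ctx0)
open Pool.Agent.TA
open Pool.Agent.AD78 (evA evT coordA evA_coordA evT_apply)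
open Submodule Module

universe u

section General

variable {k V : Type*} [Field k] [AddCommGroup V] [Module k V] {r : ℕ}

theorem le_sup_of_map_le {U S J : Submodule k V} (h : U.map J.mkQ ≤ S.map J.mkQ) : U ≤ S ⊔ J := by
  intro x hx
  obtain ⟨s, hs, hsx⟩ := h (mem_map_of_mem hx)
  rw [mkQ_apply, mkQ_apply, Submodule.Quotient.eq] at hsx
  have h1 : x = s + (x - s) := by abel
  rw [h1]
  refine add_mem (mem_sup_left hs) (mem_sup_right ?_)
  rw [← neg_sub]
  exact J.neg_mem hsx

theorem evT_mem {U : Submodule k V} (τ : Fin r → kˣ) (F : (Fin r → ℤ) →₀ V)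
    (hF : ∀ l, F l ∈ U) : evT (k := k) τ F ∈ U := by
  rw [evT_apply]
  exact U.sum_mem fun l _ => U.smul_mem _ (hF l)

/-- (O1) A covering condition of finite codimension is open along the torus. -/
theorem open_span {M : Type*} (F : M → ((Fin r → ℤ) →₀ V)) (U J : Submodule k V)
    [FiniteDimensional k (U.map J.mkQ)] (hF : ∀ m l, F m l ∈ U ⊔ J)
    (h1 : U ≤ span k (Set.range fun m => evT (k := k) 1 (F m)) ⊔ J) :
    ∃ Δ : AddMonoidAlgebra k (Fin r → ℤ), evA 1 Δ ≠ 0 ∧ ∀ τ : Fin r → kˣ, evA τ Δ ≠ 0 →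
      U ≤ span k (Set.range fun m => evT (k := k) τ (F m)) ⊔ J := by
  classical
  have hUJ : (U ⊔ J).map J.mkQ = U.map J.mkQ := by
    rw [Submodule.map_sup, Submodule.mkQ_map_self, sup_bot_eq]
  have hmem : ∀ (τ : Fin r → kˣ) m, J.mkQ (evT (k := k) τ (F m)) ∈ U.map J.mkQ := by
    intro τ m
    rw [← hUJ]
    exact mem_map_of_mem (evT_mem τ (F m) (hF m))
  have hspan : span k (Set.range fun m => J.mkQ (evT (k := k) 1 (F m))) = U.map J.mkQ := by
    apply le_antisymm
    · rw [span_le]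
      rintro _ ⟨m, rfl⟩
      exact hmem 1 m
    · rintro _ ⟨x, hx, rfl⟩
      obtain ⟨a, ha, b, hb, rfl⟩ := mem_sup.1 (h1 hx)
      rw [map_add, (Submodule.Quotient.mk_eq_zero J).2 hb |> fun h : J.mkQ b = 0 => h, add_zero]
      have h2 := mem_map_of_mem (f := J.mkQ) ha
      rw [Submodule.map_span, ← Set.range_comp] at h2
      exact h2
  have hfinS : FiniteDimensional k
      (span k (Set.range fun m => J.mkQ (evT (k := k) 1 (F m)))) := by
    rw [hspan]; infer_instance
  obtain ⟨f, hf, hfs, hfi⟩ := exists_fun_fin_finrank_span_eq k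
    (Set.range fun m => J.mkQ (evT (k := k) 1 (F m)))
  have hN : finrank k (span k (Set.range fun m => J.mkQ (evT (k := k) 1 (F m)))) =
    finrank k (U.map J.mkQ) := by rw [hspan]
  replace hfs := hfs.trans hspan
  generalize finrank k (span k (Set.range fun m => J.mkQ (evT (k := k) 1 (F m)))) = N
    at f hf hfs hfi hN
  choose m hm using hf
  obtain ⟨φ, hφ⟩ : ∃ φ : (V ⧸ J) →ₗ[k] (Fin N → k), ∀ i, φ (f i) = Pi.single i 1 := by
    have h2 : LinearMap.ker (Fintype.linearCombination k f) = ⊥ := by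
      rw [LinearMap.ker_eq_bot']
      intro c hc
      rw [Fintype.linearCombination_apply] at hc
      funext i
      exact Fintype.linearIndependent_iff.1 hfi c hc i
    obtain ⟨φ, hφ⟩ := LinearMap.exists_leftInverse_of_injective _ h2
    refine ⟨φ, fun i => ?_⟩
    have h3 := LinearMap.congr_fun hφ (Pi.single i 1)
    rw [LinearMap.comp_apply, Fintype.linearCombination_apply_single, one_smul,
      LinearMap.id_apply] at h3
    exact h3
  set A : Matrix (Fin N) (Fin N) (AddMonoidAlgebra k (Fin r → ℤ)) :=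
    fun i j => coordA ((LinearMap.proj j).comp (φ.comp J.mkQ)) (F (m i)) with hA
  have hev : ∀ (τ : Fin r → kˣ) i j, evA τ (A i j) = φ (J.mkQ (evT (k := k) τ (F (m i)))) j := by
    intro τ i j
    rw [hA]
    exact evA_coordA τ _ _
  have hdet : ∀ τ : Fin r → kˣ, evA τ A.det = ((evA τ).mapMatrix A).det := by
    intro τ
    rw [AlgHom.map_det]
  refine ⟨A.det, ?_, ?_⟩
  · have h2 : (evA 1).mapMatrix A = 1 := by
      ext i j
      have h3 : J.mkQ (evT (k := k) 1 (F (m i))) = f i := hm i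
      rw [AlgHom.mapMatrix_apply, Matrix.map_apply, hev, h3, hφ, Pi.single_apply,
        Matrix.one_apply]
      exact if_congr ⟨fun h => h.symm, fun h => h.symm⟩ rfl rfl
    rw [hdet, h2, Matrix.det_one]
    exact one_ne_zero
  · intro τ hτ
    rw [hdet] at hτ
    have h2 : LinearIndependent k (fun i => (((evA τ).mapMatrix A) i : Fin N → k)) :=
      (Matrix.linearIndependent_rows_iff_isUnit (A := ((evA τ).mapMatrix A))).2
        ((Matrix.isUnit_iff_isUnit_det _).2 (isUnit_iff_ne_zero.2 hτ))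
    have h3 : LinearIndependent k (fun i => J.mkQ (evT (k := k) τ (F (m i)))) := by
      refine LinearIndependent.of_comp φ ?_
      have h4 : (φ ∘ fun i => J.mkQ (evT (k := k) τ (F (m i)))) =
          fun i => (((evA τ).mapMatrix A) i : Fin N → k) := by
        funext i j
        rw [AlgHom.mapMatrix_apply, Matrix.map_apply, hev]
        rfl
      rw [h4]
      exact h2
    have h4 : span k (Set.range fun i => J.mkQ (evT (k := k) τ (F (m i)))) = U.map J.mkQ := by
      apply Submodule.eq_of_le_of_finrank_eq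
      · rw [span_le]
        rintro _ ⟨i, rfl⟩
        exact hmem τ (m i)
      · rw [finrank_span_eq_card h3, Fintype.card_fin, hN]
    apply le_sup_of_map_le
    rw [← h4, span_le]
    rintro _ ⟨i, rfl⟩
    exact mem_map_of_mem (subset_span ⟨m i, rfl⟩)

end General

variable {k Ω : Type u} [Field k] [Field Ω] [Algebra k Ω] {v : RVal Ω} {n r D : ℕ}
  {ι : Type} [Fintype ι]

/-- The coordinates `y_i = ∑_j c_ij (b_j - 1)`. -/
noncomputable def yc (b : ι → Ω) (c : Fin D → ι → k) (i : Fin D) : Ω :=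
  ∑ j, c i j • (b j - 1)

/-- The translate `c τ^a`. -/
def ct (a : ι → Fin r → ℤ) (c : Fin D → ι → k) (τ : Fin r → kˣ) (i : Fin D) (j : ι) : k :=
  c i j * chr (a j) τ

omit [Fintype ι] in
theorem ct_one (a : ι → Fin r → ℤ) (c : Fin D → ι → k) : ct a c 1 = c := by
  funext i j
  rw [ct, chr_apply]
  simp

theorem yc_mem_Wb (b : ι → Ω) (c : Fin D → ι → k) (i : Fin D) : yc b c i ∈ Wb k b :=
  sum_mem fun j _ => smul_mem _ _ (subset_span ⟨j, rfl⟩)

theorem exists_yc (b : ι → Ω) (y : Fin D → Ω) (hy : ∀ i, y i ∈ Wb k b) :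
    ∃ c : Fin D → ι → k, yc b c = y := by
  choose c hc using fun i => (mem_span_range_iff_exists_fun k).1 (hy i)
  exact ⟨c, funext fun i => hc i⟩

/-- (G1) for the parameters `c`, with the constant `s₀`. -/
def G1 (x : Fin r → Ω) (b : ι → Ω) (s₀ : ℕ) (y : Fin D → Ω) : Prop :=
  Wb k b ^ (s₀ + 1) ≤ span k (Set.range y) * Wb k b ^ s₀ ⊔ XA k x b ⊔
    Wb k b ^ (s₀ + 2) * (Ax k x b).toSubmodule

/-- (O2) (G1) is open along the torus. -/
theorem G1_open (x : Fin r → Ω) (b : ι → Ω) (a : ι → Fin r → ℤ) (s₀ : ℕ) (c : Fin D → ι → k)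
    (h : G1 (k := k) x b s₀ (yc b c)) :
    ∃ Δ : AddMonoidAlgebra k (Fin r → ℤ), evA 1 Δ ≠ 0 ∧ ∀ τ : Fin r → kˣ, evA τ Δ ≠ 0 →
      G1 (k := k) x b s₀ (yc b (ct a c τ)) := by
  classical
  set J : Submodule k Ω := XA k x b ⊔ Wb k b ^ (s₀ + 2) * (Ax k x b).toSubmodule with hJ
  have hfW : FiniteDimensional k (Wb k b) :=
    FiniteDimensional.span_of_finite k (Set.finite_range _)
  have hfg : ∀ t, (Wb k b ^ t).FG := fun t => by
    have h1 : (Wb k b).FG := Submodule.fg_span (Set.finite_range _)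
    exact h1.pow t
  have hfin : FiniteDimensional k ((Wb k b ^ (s₀ + 1)).map J.mkQ) :=
    Module.Finite.iff_fg.mpr ((hfg _).map _)
  obtain ⟨S, hS⟩ := hfg s₀
  -- the family
  let F : (Fin D × S) → ((Fin r → ℤ) →₀ Ω) := fun m =>
    ∑ j, Finsupp.single (a j) (c m.1 j • ((b j - 1) * (m.2 : Ω)))
  have hev : ∀ (τ : Fin r → kˣ) m, evT (k := k) τ (F m) = yc b (ct a c τ) m.1 * (m.2 : Ω) := by
    intro τ m
    rw [map_sum, yc, Finset.sum_mul]
    refine Finset.sum_congr rfl fun j _ => ?_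
    rw [evT_apply, Finsupp.sum_single_index]
    · rw [ct, smul_mul_assoc, smul_smul, mul_comm (c m.1 j)]
    · exact smul_zero _
  have hspan : ∀ τ : Fin r → kˣ, span k (Set.range fun m => evT (k := k) τ (F m)) =
      span k (Set.range (yc b (ct a c τ))) * Wb k b ^ s₀ := by
    intro τ
    rw [← hS, Submodule.span_mul_span]
    congr 1
    ext z
    constructor
    · rintro ⟨m, rfl⟩
      exact ⟨_, ⟨m.1, rfl⟩, _, m.2.2, (hev τ m).symm⟩
    · rintro ⟨_, ⟨i, rfl⟩, w, hw, rfl⟩
      exact ⟨(i, ⟨w, hw⟩), hev τ _⟩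
  obtain ⟨Δ, hΔ, hΔ2⟩ := open_span (k := k) F (Wb k b ^ (s₀ + 1)) J (by
    intro m l
    refine mem_sup_left ?_
    show (∑ j, Finsupp.single (a j) (c m.1 j • ((b j - 1) * (m.2 : Ω))) : (Fin r → ℤ) →₀ Ω) l ∈ _
    rw [Finsupp.finsetSum_apply]
    refine sum_mem fun j _ => ?_
    rw [Finsupp.single_apply]
    split_ifs
    · refine smul_mem _ _ ?_
      rw [pow_succ']
      refine Submodule.mul_mem_mul (subset_span ⟨j, rfl⟩) ?_
      rw [← hS]
      exact subset_span m.2.2
    · exact zero_mem _) (by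
    rw [hspan 1, ct_one]
    unfold G1 at h
    rw [sup_assoc] at h
    exact h)
  refine ⟨Δ, hΔ, fun τ hτ => ?_⟩
  have h2 := hΔ2 τ hτ
  rw [hspan τ] at h2
  unfold G1
  rw [sup_assoc]
  exact h2

/-- (O3) The Laurent polynomial `Q` at `t = x/τ` does not vanish for general `τ`. -/
theorem Qat_open (x : Fin r → Ω) (Q : (Fin r → ℤ) →₀ Ω) (h : Qat (k := k) x Q 1 ≠ 0) :
    ∃ Δ : AddMonoidAlgebra k (Fin r → ℤ), evA 1 Δ ≠ 0 ∧ ∀ τ : Fin r → kˣ, evA τ Δ ≠ 0 →
      Qat (k := k) x Q τ ≠ 0 := by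
  classical
  let F : (Fin r → ℤ) →₀ Ω := ∑ l ∈ Q.support, Finsupp.single (-l) (Q l * mx x l)
  have hev : ∀ τ : Fin r → kˣ, evT (k := k) τ F = Qat (k := k) x Q τ := by
    intro τ
    rw [map_sum, Qat, Finsupp.sum]
    refine Finset.sum_congr rfl fun l _ => ?_
    rw [evT_apply, Finsupp.sum_single_index]
    swap
    · exact smul_zero _
    rw [Algebra.smul_def]
    congr 2
    rw [chr_apply, chr_apply]
    rw [← Units.val_inv_eq_inv_val]
    congr 1
    rw [← Finset.prod_inv_distrib]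
    exact Finset.prod_congr rfl fun i _ => by rw [Pi.neg_apply, zpow_neg]
  obtain ⟨φ, hφ⟩ : ∃ φ : Ω →ₗ[k] k, φ (Qat (k := k) x Q 1) ≠ 0 := by
    by_contra hcon
    push Not at hcon
    exact h ((Module.forall_dual_apply_eq_zero_iff k _).1 hcon)
  refine ⟨coordA φ F, ?_, fun τ hτ h0 => hτ ?_⟩
  · rw [evA_coordA, hev]
    exact hφ
  · rw [evA_coordA, hev, h0, map_zero]

/-- (O4) The count of the polynomials of degree `< M` in `D` parameters. -/
theorem ND_le {A : Type*} [CommRing A] [Algebra k A] (I : Ideal A) [Module.Finite k (A ⧸ I)]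
    (y : Fin D → A) (M : ℕ)
    (h : ∀ g : MvPolynomial (Fin D) k, g.totalDegree < M → MvPolynomial.aeval y g ∈ I → g = 0) :
    ND D M ≤ finrank k (A ⧸ I) := by
  classical
  by_cases hM : M = 0
  · rw [ND, if_pos hM]
    exact Nat.zero_le _
  rw [ND, if_neg hM, ← card_idx D M hM]
  let m : idx D M → MvPolynomial (Fin D) k := fun β =>
    MvPolynomial.monomial (Finsupp.equivFunOnFinite.symm β.1) 1
  have hli : LinearIndependent k (fun β : idx D M =>
      (Ideal.Quotient.mkₐ k I) (MvPolynomial.aeval y (m β))) := by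
    rw [Fintype.linearIndependent_iff]
    intro c hc β
    have h1 : (∑ β, c β • m β) = 0 := by
      refine h _ ?_ ?_
      · rw [MvPolynomial.totalDegree, Finset.sup_lt_iff (Nat.pos_of_ne_zero hM)]
        intro d hd
        rw [MvPolynomial.mem_support_iff, MvPolynomial.coeff_sum] at hd
        obtain ⟨β, -, hβ⟩ := Finset.exists_ne_zero_of_sum_ne_zero hd
        rw [MvPolynomial.coeff_smul, MvPolynomial.coeff_monomial] at hβ
        have h2 : Finsupp.equivFunOnFinite.symm β.1 = d := by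
          by_contra h2
          rw [if_neg h2, smul_zero] at hβ
          exact hβ rfl
        rw [← h2, Finsupp.sum_fintype _ _ (fun _ => rfl)]
        exact mem_idx.1 β.2
      · rw [← Ideal.Quotient.eq_zero_iff_mem, map_sum, map_sum]
        rw [← hc]
        refine Finset.sum_congr rfl fun β _ => ?_
        rw [map_smul]
        rfl
    have h2 := congrArg (fun p : MvPolynomial (Fin D) k =>
      p.coeff (Finsupp.equivFunOnFinite.symm β.1)) h1
    simp only [MvPolynomial.coeff_sum, MvPolynomial.coeff_smul, MvPolynomial.coeff_zero] at h2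
    rw [Finset.sum_eq_single β] at h2
    · simpa [m, MvPolynomial.coeff_monomial] using h2
    · intro β' _ hβ'
      rw [MvPolynomial.coeff_monomial, if_neg, smul_zero]
      intro h3
      exact hβ' (Subtype.ext (Finsupp.equivFunOnFinite.symm.injective h3))
    · intro h3; exact absurd (Finset.mem_univ _) h3
  have h1 := hli.fintype_card_le_finrank
  rw [Fintype.card_coe] at h1
  exact h1

end Pool.Agent.ALL
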