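import Pool.Agent.Lib.ALL.Defs

/-!
# PROJECT ALL: the statements of the blocks X (sections 1 - 4), Y (section 5), Z (sections 6, 7)
-/

set_option autoImplicit false

namespace Pool.Agent.ALL

open Pool.Agent.H15JM (RVal)
open Pool.Agent.LU1 (VPos locv FracIs fixO)

universe u

/-- `(n + 1) 2^(3n-1) (n!)^2`. -/
def p0 (n : ℕ) : ℕ := (n + 1) * 2 ^ (3 * n - 1) * (n.factorial) ^ 2

/-- BLOCK X (sections 1 - 4). -/
def XStmt (k : Type u) [Field k] (p n : ℕ) : Prop :=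
  ∀ (Ω : Type u) [Field Ω] [Algebra k Ω] [IsAlgClosed Ω] (v : RVal Ω) (r D : ℕ),
    TA.CtxR k v n r → 0 < r → n = r + D → ∀ E : IntermediateField k Ω,
      (∀ g : Ω, IsAlgebraic E g) → ∀ Z : Finset Ω, (∀ z ∈ Z, z ≠ 0) →
      IntermediateField.adjoin k (Z : Set Ω) = E →
      ∃ (F : FR k v D) (K : IntermediateField k Ω) (N : IntermediateField K Ω)
        (_ : FiniteDimensional K N) (_ : IsGalois K N) (H : Subgroup (N ≃ₐ[K] N)) (Q Q' : Ω),
        XD v p E Z F K N H Q Q'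

/-- BLOCK Y (section 5): an element of order `< p` becomes a monomial, given embedded local
uniformization in transcendence degree `n - 1`. `F₁` is an extension of `F` with the same
parameters. -/
def YStmt (k : Type u) [Field k] (p n : ℕ) : Prop :=
  ∀ (Ω : Type u) [Field Ω] [Algebra k Ω] [IsAlgClosed Ω] (v : RVal Ω) (r D : ℕ),
    TA.CtxR k v n r → 0 < r → n = r + D →
      ∀ (F F₁ : FR k v D), F.Same F₁ → ∀ (δ : Ω) (κ : ℝ) (M : ℕ), F₁.Ord δ κ M → M < p →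
        ∃ F' F₁' : FR k v D, F.Le F' ∧ F₁.Le F₁' ∧ F'.Same F₁' ∧
          F₁'.R = locv v (Algebra.adjoin k ((F₁.R : Set Ω) ∪ F'.R)) ∧ F₁'.Mono δ

/-- BLOCK Z (sections 6, 7): once `Q Q'` is a monomial over the frame `F' ≥ F`, the localisation
at the centre of the integral closure of `F'.R` in `E` is a frame of `E`. -/
def ZStmt (k : Type u) [Field k] (p n : ℕ) : Prop :=
  ∀ (Ω : Type u) [Field Ω] [Algebra k Ω] [IsAlgClosed Ω] (v : RVal Ω) (r D : ℕ),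
    TA.CtxR k v n r → 0 < r → n = r + D → ∀ (E : IntermediateField k Ω) (Z : Finset Ω)
      (F : FR k v D) (K : IntermediateField k Ω) (N : IntermediateField K Ω)
      (_ : FiniteDimensional K N) (_ : IsGalois K N) (H : Subgroup (N ≃ₐ[K] N)) (Q Q' : Ω),
      (∀ g : Ω, IsAlgebraic E g) → (∀ z ∈ Z, z ≠ 0) → IntermediateField.adjoin k (Z : Set Ω) = E →
      XD v p E Z F K N H Q Q' →
      ∀ F' : FR k v D, F.Le F' → F'.MonoIn (ICl v F'.R (N.restrictScalars k)) (Q * Q') →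
        ∃ C : FR k v D, C.R = ICl v F'.R E ∧ (∀ γ ∈ F'.Γ, γ ∈ C.Γ) ∧
          (∀ γ ∈ F'.Γ, C.Un (F'.χ γ / C.χ γ)) ∧ C.y = F'.y

/-- ROW BETA: a frame has logarithmic derivations (Nakayama; `K` is the field of fractions). -/
def BetaStmt (k : Type u) [Field k] (n : ℕ) : Prop :=
  ∀ (Ω : Type u) [Field Ω] [Algebra k Ω] [IsAlgClosed Ω] (v : RVal Ω) (r D : ℕ),
    TA.CtxR k v n r → 0 < r → n = r + D → ∀ (F : FR k v D) (K : IntermediateField k Ω),
      FracIs F.R K → ∀ (φ : ℝ → k), (∀ γ ∈ F.Γ, ∀ δ ∈ F.Γ, φ (γ + δ) = φ γ + φ δ) →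
      ∀ c : Fin D → k, ∃ d : Derivation k K K,
        (∀ γ ∈ F.Γ, ∀ e : K, (e : Ω) = F.χ γ → (d e : Ω) = algebraMap k Ω (φ γ) * F.χ γ) ∧
        (∀ j, ∀ e : K, (e : Ω) = F.y j → (d e : Ω) = algebraMap k Ω (c j)) ∧
        ∀ e : K, (e : Ω) ∈ F.R → (d e : Ω) ∈ F.R

end Pool.Agent.ALL
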