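import Pool.Agent.Lib.ALL.Lin

/-!
# ALLDEFECT, block 4, row R41
-/

set_option autoImplicit false

namespace Pool.Agent.ALL

open Module

section R41

variable {k L : Type*} [Field k] [AddCommGroup L] {X : Type*} [Fintype X]

/-- Coefficients at `0` of the elements of `M` with exponents of value `≥ 0`. -/
def InM (val : L →+ ℝ) (M : Submodule (AddMonoidAlgebra k L) (X → AddMonoidAlgebra k L)) :
    Submodule k (X → k) where
  carrier := {u | ∃ w ∈ M, (∀ i l, val l < 0 → (w i).coeff l = 0) ∧ ∀ i, (w i).coeff 0 = u i}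
  add_mem' := (InS val M).add_mem'
  zero_mem' := (InS val M).zero_mem'
  smul_mem' := (InS val M).smul_mem'

theorem mem_InM {val : L →+ ℝ}
    {M : Submodule (AddMonoidAlgebra k L) (X → AddMonoidAlgebra k L)} {u : X → k} :
    u ∈ InM val M ↔ ∃ w ∈ M, (∀ i l, val l < 0 → (w i).coeff l = 0) ∧
      ∀ i, (w i).coeff 0 = u i := Iff.rfl

theorem InM_eq_InS (val : L →+ ℝ)
    (M : Submodule (AddMonoidAlgebra k L) (X → AddMonoidAlgebra k L)) : InM val M = InS val M := rfl

/-- R41. -/
theorem inM_bound (val : L →+ ℝ) (hval : Function.Injective val) {d₁ d₂ : ℕ}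
    (φ : (X → AddMonoidAlgebra k L) →ₗ[AddMonoidAlgebra k L] (Fin d₂ → AddMonoidAlgebra k L))
    (ψ : (Fin d₁ → AddMonoidAlgebra k L) →ₗ[AddMonoidAlgebra k L] (Fin d₂ → AddMonoidAlgebra k L))
    (hψ : Function.Injective ψ) :
    Fintype.card X + d₁ ≤ finrank k (InM val ((LinearMap.range ψ).comap φ)) + d₂ := by
  have h := card_add_card_le val hval φ ψ hψ
  rw [Fintype.card_fin, Fintype.card_fin] at h
  rw [InM_eq_InS]
  omega

end R41

end Pool.Agent.ALL
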