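import Mathlib

/-!
# Project ALL, section 4: linear algebra over the group algebra of a totally ordered group

`L` is an additive group with an injective homomorphism `val` to a totally ordered group, and
`R = k[L]` is its group algebra.  For an `R`-submodule `M` of `X → R`, `InS val M` is the space of
the coefficients at `0` of the elements of `M` supported in `val ≥ 0`.
-/

set_option autoImplicit false
set_option linter.unusedSectionVars false

namespace Pool.Agent.ALL

open Module Submodule

section Weights

theorem sum_c' {k X M W : Type*} [Field k] [AddCommGroup X] [Module k X] [Fintype M]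
    [DecidableEq M] [LinearOrder W] (w : M → W) (S' : Finset M) (m0 : M) (hm0 : m0 ∉ S') (c : M → k) (g : M → X) :
    ∑ m, (if m = m0 then 1 else if m ∈ S' ∧ w m = w m0 then -c m else 0 : k) • g m =
      g m0 - ∑ m ∈ S' with w m = w m0, c m • g m := by
  classical
  have e1 : ∑ m, (if m = m0 then 1 else if m ∈ S' ∧ w m = w m0 then -c m else 0 : k) • g m =
      ∑ m, ((if m = m0 then g m else 0) -
      (if m ∈ S' ∧ w m = w m0 then c m • g m else 0)) := by
    refine Finset.sum_congr rfl fun m _ => ?_
    by_cases e : m = m0
    · subst e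
      simp [hm0]
    · by_cases e' : m ∈ S' ∧ w m = w m0
      · simp [e, e']
      · simp [e, e']
  rw [e1, Finset.sum_sub_distrib, Finset.sum_ite_eq' Finset.univ m0,
    if_pos (Finset.mem_univ _), ← Finset.sum_filter]
  congr 1
  refine Finset.sum_congr ?_ fun _ _ => rfl
  ext m
  simp [Finset.mem_filter]

/-- Dimension of a weight degeneration: if every weight-homogeneous combination of the `a m` which
lies in the span of the `a m'` of higher weight is killed by `u`, the `u m` span a space of
dimension at most that of the span of the `a m`. -/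
theorem finrank_span_le_of_weights {k V T M W : Type*} [Field k] [AddCommGroup V] [Module k V]
    [AddCommGroup T] [Module k T] [Fintype M] [LinearOrder W] (w : M → W) (a : M → V) (u : M → T)
    (H : ∀ (τ : W) (c : M → k), (∀ m, c m ≠ 0 → w m = τ) →
      (∑ m, c m • a m) ∈ span k (a '' {m | τ < w m}) → ∑ m, c m • u m = 0) :
    finrank k (span k (Set.range u)) ≤ finrank k (span k (Set.range a)) := by
  classical
  have key : ∀ n : ℕ, ∀ S : Finset M, S.card = n → (∀ m ∈ S, ∀ m', w m < w m' → m' ∈ S) →
      ∃ J : Finset M, J ⊆ S ∧ LinearIndependent k (fun j : J => a j) ∧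
        (∀ m ∈ S, a m ∈ span k (a '' J)) ∧ ∀ m ∈ S, u m ∈ span k (u '' J) := by
    intro n
    induction n with
    | zero =>
      intro S hS _
      rw [Finset.card_eq_zero] at hS
      subst hS
      exact ⟨∅, le_rfl, linearIndependent_empty_type, by simp, by simp⟩
    | succ n ih =>
      intro S hS hup
      have hne : S.Nonempty := by
        rw [← Finset.card_pos, hS]; omega
      obtain ⟨m0, hm0, hmin⟩ := S.exists_min_image w hne
      set S' := S.erase m0 with hS'
      have hcard : S'.card = n := by rw [hS', Finset.card_erase_of_mem hm0, hS]; rfl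
      have hup' : ∀ m ∈ S', ∀ m', w m < w m' → m' ∈ S' := by
        intro m hm m' hmm'
        refine Finset.mem_erase.2 ⟨?_, hup m (Finset.mem_of_mem_erase hm) m' hmm'⟩
        rintro rfl
        exact absurd hmm' (not_lt.2 (hmin m (Finset.mem_of_mem_erase hm)))
      obtain ⟨J, hJS, hJli, hJa, hJu⟩ := ih S' hcard hup'
      have hspan : span k (a '' (S' : Set M)) ≤ span k (a '' (J : Set M)) := by
        rw [span_le]
        rintro _ ⟨m, hm, rfl⟩
        exact hJa m hm
      by_cases hmem : a m0 ∈ span k (a '' (J : Set M))
      · refine ⟨J, hJS.trans (Finset.erase_subset _ _), hJli, ?_, ?_⟩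
        · intro m hm
          by_cases h : m = m0
          · rw [h]; exact hmem
          · exact hJa m (Finset.mem_erase.2 ⟨h, hm⟩)
        · intro m hm
          by_cases h : m = m0
          · rw [h]
            have h1 : a m0 ∈ span k (a '' (S' : Set M)) :=
              span_mono (Set.image_mono (by exact_mod_cast hJS)) hmem
            rw [mem_span_image_finset_iff_exists_fun] at h1
            obtain ⟨c, hc⟩ : ∃ c : M → k, ∑ m ∈ S', c m • a m = a m0 := by
              obtain ⟨c, hc⟩ := h1
              refine ⟨fun m => if h : m ∈ S' then c ⟨m, h⟩ else 0, ?_⟩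
              rw [← hc, ← Finset.sum_coe_sort]
              refine Finset.sum_congr rfl fun m _ => ?_
              simp
            have hm0' : m0 ∉ S' := by simp [hS']
            set c' : M → k := fun m => if m = m0 then 1 else if m ∈ S' ∧ w m = w m0 then -c m else 0
              with hc'
            have h2 := H (w m0) c' (by
              intro m hm
              simp only [hc'] at hm
              by_cases e : m = m0
              · rw [e]
              · by_cases e' : m ∈ S' ∧ w m = w m0
                · exact e'.2
                · simp [e, e'] at hm) (by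
              rw [hc', sum_c' w S' m0 hm0' c a]
              have h3 : a m0 = ∑ m ∈ S' with w m = w m0, c m • a m +
                  ∑ m ∈ S' with ¬ w m = w m0, c m • a m := by
                rw [Finset.sum_filter_add_sum_filter_not]
                exact hc.symm
              have h4 : a m0 - ∑ m ∈ S' with w m = w m0, c m • a m =
                  ∑ m ∈ S' with ¬ w m = w m0, c m • a m := by
                rw [sub_eq_iff_eq_add, add_comm]; exact h3
              rw [h4]
              refine sum_mem fun m hm => smul_mem _ _ (subset_span ⟨m, ?_, rfl⟩)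
              obtain ⟨h5, h6⟩ := Finset.mem_filter.1 hm
              exact lt_of_le_of_ne (hmin m (Finset.mem_of_mem_erase h5)) (fun e => h6 e.symm))
            rw [hc', sum_c' w S' m0 hm0' c u, sub_eq_zero] at h2
            rw [h2]
            exact sum_mem fun m hm => smul_mem _ _ (hJu m (Finset.mem_filter.1 hm).1)
          · exact hJu m (Finset.mem_erase.2 ⟨h, hm⟩)
      · refine ⟨insert m0 J, ?_, ?_, ?_, ?_⟩
        · exact Finset.insert_subset hm0 (hJS.trans (Finset.erase_subset _ _))
        · have h1 : LinearIndepOn k a (J : Set M) := hJli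
          have h2 : LinearIndepOn k a (insert m0 (J : Set M)) := h1.insert hmem
          rw [← Finset.coe_insert] at h2
          exact h2
        · intro m hm
          by_cases h : m = m0
          · rw [h]; exact subset_span ⟨m0, by simp, rfl⟩
          · exact span_mono (Set.image_mono (by simp)) (hJa m (Finset.mem_erase.2 ⟨h, hm⟩))
        · intro m hm
          by_cases h : m = m0
          · rw [h]; exact subset_span ⟨m0, by simp, rfl⟩
          · exact span_mono (Set.image_mono (by simp)) (hJu m (Finset.mem_erase.2 ⟨h, hm⟩))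
  obtain ⟨J, -, hJli, -, hJu⟩ := key _ Finset.univ rfl (fun _ _ _ _ => Finset.mem_univ _)
  have h1 : span k (Set.range u) ≤ span k (u '' (J : Set M)) := by
    rw [span_le]
    rintro _ ⟨m, rfl⟩
    exact hJu m (Finset.mem_univ _)
  have : FiniteDimensional k (span k (u '' (J : Set M))) :=
    FiniteDimensional.span_of_finite k (J.finite_toSet.image u)
  have : FiniteDimensional k (span k (Set.range a)) :=
    FiniteDimensional.span_of_finite k (Set.finite_range a)
  calc finrank k (span k (Set.range u)) ≤ finrank k (span k (u '' (J : Set M))) :=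
        Submodule.finrank_mono h1
    _ ≤ J.card := by
        rw [← Finset.coe_image]
        exact (finrank_span_finset_le_card _).trans Finset.card_image_le
    _ ≤ finrank k (span k (Set.range a)) := by
        have h2 : LinearIndependent k (fun j : J => (⟨a j, subset_span ⟨_, rfl⟩⟩ :
            span k (Set.range a))) := by
          refine LinearIndependent.of_comp (span k (Set.range a)).subtype ?_
          exact hJli
        have := h2.fintype_card_le_finrank
        simpa using this

end Weights

section Lin

variable {k : Type*} [Field k] {L : Type*} [AddCommGroup L] {G₀ : Type*} [AddCommGroup G₀]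
  [LinearOrder G₀] [IsOrderedAddMonoid G₀]

/-- The group algebra is a domain. -/
theorem noZeroDivisors_of_val (val : L →+ G₀) (hval : Function.Injective val) :
    NoZeroDivisors (AddMonoidAlgebra k L) := by
  have : UniqueSums L := UniqueSums.of_injective_addHom val.toAddHom hval inferInstance
  infer_instance

/-- `f` has support in `val ≥ 0`. -/
def Nn (val : L →+ G₀) (f : AddMonoidAlgebra k L) : Prop := ∀ ν, val ν < 0 → f.coeff ν = 0

theorem coeff_mul' [DecidableEq L] (f g : AddMonoidAlgebra k L) (ν : L) :
    (f * g).coeff ν = ∑ a ∈ f.coeff.support, ∑ b ∈ g.coeff.support,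
      if a + b = ν then f.coeff a * g.coeff b else 0 :=
  AddMonoidAlgebra.coeff_mul f g ν

theorem mul_coeff_lt {val : L →+ G₀} {f g : AddMonoidAlgebra k L} (hf : Nn val f) (hg : Nn val g)
    {ν : L} (hν : val ν < 0) : (f * g).coeff ν = 0 := by
  classical
  rw [coeff_mul']
  refine Finset.sum_eq_zero fun a ha => Finset.sum_eq_zero fun b hb => ?_
  rw [Finsupp.mem_support_iff] at ha hb
  split_ifs with h
  · exfalso
    have h1 : 0 ≤ val a := not_lt.1 fun h0 => ha (hf a h0)
    have h2 : 0 ≤ val b := not_lt.1 fun h0 => hb (hg b h0)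
    have h3 := add_nonneg h1 h2
    rw [← map_add, h] at h3
    exact absurd hν (not_lt.2 h3)
  · rfl

theorem mul_coeff_zero {val : L →+ G₀} (hval : Function.Injective val)
    {f g : AddMonoidAlgebra k L} (hf : Nn val f) (hg : Nn val g) :
    (f * g).coeff 0 = f.coeff 0 * g.coeff 0 := by
  classical
  rw [coeff_mul']
  have key : ∀ a b : L, f.coeff a ≠ 0 → g.coeff b ≠ 0 → a + b = 0 → a = 0 ∧ b = 0 := by
    intro a b ha hb h
    have h1 : 0 ≤ val a := not_lt.1 fun h0 => ha (hf a h0)
    have h2 : 0 ≤ val b := not_lt.1 fun h0 => hb (hg b h0)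
    have h3 : val a + val b = 0 := by rw [← map_add, h, map_zero]
    have h4 : val a = 0 := le_antisymm (by rw [← h3]; exact le_add_of_nonneg_right h2) h1
    have h5 : val b = 0 := le_antisymm (by rw [← h3]; exact le_add_of_nonneg_left h1) h2
    exact ⟨hval (h4.trans (map_zero val).symm), hval (h5.trans (map_zero val).symm)⟩
  by_cases h0 : f.coeff 0 = 0
  · rw [h0, zero_mul]
    refine Finset.sum_eq_zero fun a ha => Finset.sum_eq_zero fun b hb => ?_
    rw [Finsupp.mem_support_iff] at ha hb
    split_ifs with h
    · exact absurd (by rw [(key a b ha hb h).1]; exact h0) ha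
    · rfl
  by_cases h1 : g.coeff 0 = 0
  · rw [h1, mul_zero]
    refine Finset.sum_eq_zero fun a ha => Finset.sum_eq_zero fun b hb => ?_
    rw [Finsupp.mem_support_iff] at ha hb
    split_ifs with h
    · exact absurd (by rw [(key a b ha hb h).2]; exact h1) hb
    · rfl
  rw [Finset.sum_eq_single (0 : L)]
  · rw [Finset.sum_eq_single (0 : L)]
    · rw [if_pos (add_zero _)]
    · intro b hb hb0
      rw [Finsupp.mem_support_iff] at hb
      rw [if_neg]
      intro h
      exact hb0 (key 0 b h0 hb h).2
    · intro h
      exact absurd (Finsupp.mem_support_iff.2 h1) h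
  · intro a ha ha0
    rw [Finsupp.mem_support_iff] at ha
    refine Finset.sum_eq_zero fun b hb => ?_
    rw [Finsupp.mem_support_iff] at hb
    rw [if_neg]
    intro h
    exact ha0 (key a b ha hb h).1
  · intro h
    exact absurd (Finsupp.mem_support_iff.2 h0) h

/-- The subring of the elements supported in `val ≥ 0`. -/
def nnR (k : Type*) [Field k] (val : L →+ G₀) : Subring (AddMonoidAlgebra k L) where
  carrier := {f | Nn val f}
  mul_mem' := fun hf hg ν hν => mul_coeff_lt hf hg hν
  one_mem' := by
    classical
    intro ν hν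
    rw [AddMonoidAlgebra.one_def, AddMonoidAlgebra.coeff_single, Finsupp.single_apply, if_neg]
    rintro rfl
    rw [map_zero] at hν
    exact lt_irrefl _ hν
  add_mem' := by
    intro f g hf hg ν hν
    rw [AddMonoidAlgebra.coeff_add, Finsupp.add_apply, hf ν hν, hg ν hν, add_zero]
  zero_mem' := fun ν _ => rfl
  neg_mem' := by
    intro f hf ν hν
    rw [AddMonoidAlgebra.coeff_neg, Finsupp.neg_apply, hf ν hν, neg_zero]

/-- The coefficient at zero is a ring homomorphism on `nnR`. -/
def c0 (k : Type*) [Field k] (val : L →+ G₀) (hval : Function.Injective val) : nnR k val →+* k where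
  toFun f := (f : AddMonoidAlgebra k L).coeff 0
  map_one' := by
    show (1 : AddMonoidAlgebra k L).coeff 0 = 1
    exact AddMonoidAlgebra.coeff_one_zero
  map_mul' := fun f g => mul_coeff_zero hval f.2 g.2
  map_zero' := rfl
  map_add' := fun _ _ => rfl

/-- A square matrix over `nnR` with non-zero determinant at `0` has non-zero determinant. -/
theorem det_ne_zero_of_c0 (val : L →+ G₀) (hval : Function.Injective val) {n : Type*} [Fintype n]
    [DecidableEq n] (D : Matrix n n (AddMonoidAlgebra k L)) (hD : ∀ i j, Nn val (D i j))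
    (h0 : (Matrix.of fun i j => (D i j).coeff 0).det ≠ 0) : D.det ≠ 0 := by
  let D' : Matrix n n (nnR k val) := Matrix.of fun i j => ⟨D i j, hD i j⟩
  have h1 : (nnR k val).subtype D'.det = D.det := by
    rw [RingHom.map_det]
    rfl
  have h2 : c0 k val hval D'.det = (Matrix.of fun i j => (D i j).coeff 0).det := by
    rw [RingHom.map_det]
    rfl
  intro h
  rw [h] at h1
  have h3 : D'.det = 0 := Subtype.ext h1
  rw [h3, map_zero] at h2
  exact h0 h2.symm

/-! ### The rank of a submodule and its space of initial vectors -/

theorem single_mul_coeff (μ : L) (c : k) (f : AddMonoidAlgebra k L) (ν : L) :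
    (AddMonoidAlgebra.single μ c * f).coeff ν = c * f.coeff (-μ + ν) :=
  AddMonoidAlgebra.coeff_single_mul_apply f c μ ν

/-- The coefficients at zero of the elements of `M` supported in `val ≥ 0`. -/
def InS (val : L →+ G₀) {X : Type*}
    (M : Submodule (AddMonoidAlgebra k L) (X → AddMonoidAlgebra k L)) : Submodule k (X → k) where
  carrier := {u | ∃ w ∈ M, (∀ x, Nn val (w x)) ∧ ∀ x, (w x).coeff 0 = u x}
  add_mem' := by
    rintro u u' ⟨w, hw, h1, h2⟩ ⟨w', hw', h1', h2'⟩
    exact ⟨w + w', M.add_mem hw hw', fun x => (nnR k val).add_mem (h1 x) (h1' x), fun x => by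
      rw [Pi.add_apply, AddMonoidAlgebra.coeff_add, Finsupp.add_apply, h2, h2', Pi.add_apply]⟩
  zero_mem' := ⟨0, M.zero_mem, fun x => (nnR k val).zero_mem, fun x => rfl⟩
  smul_mem' := by
    rintro c u ⟨w, hw, h1, h2⟩
    refine ⟨(AddMonoidAlgebra.single (0 : L) c : AddMonoidAlgebra k L) • w, M.smul_mem _ hw,
      fun x ν hν => ?_, fun x => ?_⟩
    · rw [Pi.smul_apply, smul_eq_mul, single_mul_coeff, neg_zero, zero_add, h1 x ν hν, mul_zero]
    · rw [Pi.smul_apply, smul_eq_mul, single_mul_coeff, neg_zero, zero_add, h2 x]
      rfl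

/-- A non-zero vector has an initial exponent. -/
theorem exists_lead (val : L →+ G₀) {X : Type*} [Finite X] (w : X → AddMonoidAlgebra k L)
    (hw : w ≠ 0) : ∃ ν₀ : L, (∀ x ν, val ν < val ν₀ → (w x).coeff ν = 0) ∧
      ∃ x, (w x).coeff ν₀ ≠ 0 := by
  classical
  have := Fintype.ofFinite X
  let S : Finset L := Finset.univ.biUnion fun x => (w x).coeff.support
  have hS : S.Nonempty := by
    by_contra h
    apply hw
    funext x
    by_contra hx
    apply h
    rw [Finset.biUnion_nonempty]
    refine ⟨x, Finset.mem_univ x, ?_⟩
    rw [Finset.nonempty_iff_ne_empty, Ne, Finsupp.support_eq_empty]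
    exact fun h0 => hx (AddMonoidAlgebra.coeff_eq_zero.1 h0)
  obtain ⟨ν₀, h0, hmin⟩ := S.exists_min_image (fun ν => val ν) hS
  obtain ⟨x₀, -, hx₀⟩ := Finset.mem_biUnion.1 h0
  refine ⟨ν₀, fun x ν hν => ?_, x₀, Finsupp.mem_support_iff.1 hx₀⟩
  by_contra hne
  exact absurd hν (not_lt.2 (hmin ν (Finset.mem_biUnion.2
    ⟨x, Finset.mem_univ x, Finsupp.mem_support_iff.2 hne⟩)))

/-- `L1`: the rank of `M` is at most the dimension of the space of its initial vectors. -/
theorem finrank_le_InS (val : L →+ G₀) (hval : Function.Injective val) {X : Type*} [Fintype X]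
    (M : Submodule (AddMonoidAlgebra k L) (X → AddMonoidAlgebra k L)) :
    finrank (AddMonoidAlgebra k L) M ≤ finrank k (InS val M) := by
  classical
  have hnz := noZeroDivisors_of_val (k := k) val hval
  have hdom : IsDomain (AddMonoidAlgebra k L) := NoZeroDivisors.to_isDomain _
  set e := finrank k (InS val M) with he
  obtain ⟨g, hg⟩ := (InS val M).subtype.exists_leftInverse_of_injective
    (LinearMap.ker_eq_bot.2 (Submodule.injective_subtype _))
  let π : (X → k) →ₗ[k] (Fin e → k) :=
    (finBasis k (InS val M)).equivFun.toLinearMap ∘ₗ g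
  have hπ : ∀ u ∈ InS val M, π u = 0 → u = 0 := by
    intro u hu h0
    have h1 : g u = 0 := (finBasis k (InS val M)).equivFun.map_eq_zero_iff.1 h0
    have h2 : g ((InS val M).subtype ⟨u, hu⟩) = ⟨u, hu⟩ := LinearMap.congr_fun hg ⟨u, hu⟩
    have h3 : (⟨u, hu⟩ : InS val M) = 0 := h2.symm.trans h1
    exact congrArg Subtype.val h3
  let A : Matrix (Fin e) X (AddMonoidAlgebra k L) :=
    Matrix.of fun i x => AddMonoidAlgebra.single 0 (π (Pi.single x 1) i)
  have hA : ∀ (w : X → AddMonoidAlgebra k L) (i : Fin e) (ν : L),
      ((A.mulVecLin w) i).coeff ν = π (fun x => (w x).coeff ν) i := by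
    intro w i ν
    rw [Matrix.mulVecLin_apply, Matrix.mulVec, dotProduct, AddMonoidAlgebra.coeff_sum,
      Finsupp.finsetSum_apply]
    have h1 : (fun x => (w x).coeff ν) = ∑ x, (w x).coeff ν • (Pi.single x (1 : k) : X → k) := by
      funext y
      rw [Finset.sum_apply, Finset.sum_eq_single y]
      · simp
      · intro z _ hz
        simp [Pi.single_eq_of_ne (Ne.symm hz)]
      · intro h; exact absurd (Finset.mem_univ _) h
    rw [h1, map_sum, Finset.sum_apply]
    refine Finset.sum_congr rfl fun x _ => ?_
    rw [map_smul, Pi.smul_apply, smul_eq_mul]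
    show (AddMonoidAlgebra.single (0 : L) (π (Pi.single x 1) i) * w x).coeff ν = _
    rw [single_mul_coeff, neg_zero, zero_add, mul_comm]
  have hinj : Function.Injective (A.mulVecLin ∘ₗ M.subtype) := by
    rw [injective_iff_map_eq_zero]
    rintro ⟨w, hw⟩ h0
    by_contra hne
    have hw0 : w ≠ 0 := fun h => hne (Subtype.ext h)
    obtain ⟨ν₀, hlow, x₀, hx₀⟩ := exists_lead val w hw0
    have h1 : (fun x => (w x).coeff ν₀) ∈ InS val M := by
      refine ⟨(AddMonoidAlgebra.single (-ν₀) (1 : k) : AddMonoidAlgebra k L) • w,
        M.smul_mem _ hw, fun x ν hν => ?_, fun x => ?_⟩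
      · rw [Pi.smul_apply, smul_eq_mul, single_mul_coeff, one_mul, neg_neg]
        refine hlow x _ ?_
        rw [map_add]
        exact add_lt_of_neg_right _ hν
      · rw [Pi.smul_apply, smul_eq_mul, single_mul_coeff, one_mul, neg_neg, add_zero]
    have h2 : π (fun x => (w x).coeff ν₀) = 0 := by
      funext i
      rw [← hA w i ν₀]
      have h3 : A.mulVecLin w = 0 := h0
      rw [h3]
      rfl
    exact hx₀ (congrFun (hπ _ h1 h2) x₀)
  have := LinearMap.finrank_le_finrank_of_injective hinj
  rwa [Module.finrank_fin_fun] at this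

/-- `L2`: the initial vectors of the module of the `G` with `φ G` in the image of `ψ`. -/
theorem card_add_card_le (val : L →+ G₀) (hval : Function.Injective val) {X Y Z : Type*}
    [Fintype X] [Fintype Y] [Fintype Z]
    (φ : (X → AddMonoidAlgebra k L) →ₗ[AddMonoidAlgebra k L] (Z → AddMonoidAlgebra k L))
    (ψ : (Y → AddMonoidAlgebra k L) →ₗ[AddMonoidAlgebra k L] (Z → AddMonoidAlgebra k L))
    (hψ : Function.Injective ψ) :
    Fintype.card X + Fintype.card Y ≤
      Fintype.card Z + finrank k (InS val ((LinearMap.range ψ).comap φ)) := by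
  classical
  have hnz := noZeroDivisors_of_val (k := k) val hval
  have hdom : IsDomain (AddMonoidAlgebra k L) := NoZeroDivisors.to_isDomain _
  have h1 := finrank_le_InS val hval ((LinearMap.range ψ).comap φ)
  set M := (LinearMap.range ψ).comap φ with hM
  have h2 := Submodule.finrank_quotient_add_finrank M
  have h5 := Submodule.finrank_quotient_add_finrank (LinearMap.range ψ)
  have h6 := LinearMap.finrank_range_of_inj hψ
  have h7 : Function.Injective (M.mapQ (LinearMap.range ψ) φ le_rfl) := by
    rw [← LinearMap.ker_eq_bot, Submodule.ker_mapQ, ← hM, Submodule.mkQ_map_self]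
  have h8 := LinearMap.finrank_le_finrank_of_injective h7
  rw [Module.finrank_fintype_fun_eq_card] at h2 h5 h6
  omega

end Lin

end Pool.Agent.ALL
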