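import Pool.Agent.Lib.ALL.J4b
import Pool.Agent.Lib.ALL.Lin
import Pool.Agent.Lib.TA.ChoiceY

/-!
# ALLDEFECT, block 4, row R43: the count with the divisor
-/

set_option autoImplicit false

namespace Pool.Agent.ALL

open Pool.Agent.H15JM (RVal)
open Pool.Agent.LU1 (VPos)
open Pool.Agent.LU3 (Ctx0)
open Pool.Agent.TA
open Pool.Agent.AD78 (evA evT evT_apply jets tdeg finrank_map_add)
open Submodule Module

universe u

/-! ## Coefficients in the group algebra over `Ω` -/

section Coef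

variable {k Ω : Type*} [Field k] [Field Ω] [Algebra k Ω] {L : Type*} [AddCommGroup L]

variable (k Ω L) in
/-- `k[L] → Ω[L]`. -/
noncomputable def mR : AddMonoidAlgebra k L →+* AddMonoidAlgebra Ω L :=
  AddMonoidAlgebra.mapRingHom L (algebraMap k Ω)

theorem mR_coeff (g : AddMonoidAlgebra k L) (μ : L) :
    (mR k Ω L g).coeff μ = algebraMap k Ω (g.coeff μ) :=
  AddMonoidAlgebra.coeff_mapRingHom _ _ _

/-- A functional, coefficient by coefficient. -/
noncomputable def cf (θ : Ω →ₗ[k] k) : AddMonoidAlgebra Ω L →+ AddMonoidAlgebra k L where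
  toFun F := AddMonoidAlgebra.ofCoeff (F.coeff.mapRange θ (map_zero θ))
  map_zero' := by
    rw [← AddMonoidAlgebra.coeff_eq_zero]
    ext μ
    rw [AddMonoidAlgebra.coeff_ofCoeff, Finsupp.mapRange_apply, AddMonoidAlgebra.coeff_zero,
      Finsupp.zero_apply, map_zero, Finsupp.zero_apply]
  map_add' F G := by
    rw [← AddMonoidAlgebra.coeff_inj]
    ext μ
    rw [AddMonoidAlgebra.coeff_ofCoeff, Finsupp.mapRange_apply, AddMonoidAlgebra.coeff_add,
      AddMonoidAlgebra.coeff_add, Finsupp.add_apply, Finsupp.add_apply, map_add,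
      AddMonoidAlgebra.coeff_ofCoeff, AddMonoidAlgebra.coeff_ofCoeff, Finsupp.mapRange_apply,
      Finsupp.mapRange_apply]

omit [AddCommGroup L] in
theorem cf_coeff (θ : Ω →ₗ[k] k) (F : AddMonoidAlgebra Ω L) (μ : L) :
    (cf θ F).coeff μ = θ (F.coeff μ) := rfl

omit [AddCommGroup L] in
theorem cf_single (θ : Ω →ₗ[k] k) (a : L) (ω : Ω) :
    cf θ (AddMonoidAlgebra.single a ω) = AddMonoidAlgebra.single a (θ ω) := by
  classical
  rw [← AddMonoidAlgebra.coeff_inj]
  ext μ
  rw [cf_coeff, AddMonoidAlgebra.coeff_single, AddMonoidAlgebra.coeff_single,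
    Finsupp.single_apply, Finsupp.single_apply]
  split_ifs
  · rfl
  · exact map_zero θ

theorem cf_mul (θ : Ω →ₗ[k] k) (g : AddMonoidAlgebra k L) (F : AddMonoidAlgebra Ω L) :
    cf θ (mR k Ω L g * F) = g * cf θ F := by
  induction g using AddMonoidAlgebra.induction_linear with
  | zero => rw [map_zero, zero_mul, map_zero, zero_mul]
  | add g h hg hh => rw [map_add, add_mul, map_add, hg, hh, add_mul]
  | single a c =>
    induction F using AddMonoidAlgebra.induction_linear with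
    | zero => rw [mul_zero, map_zero, mul_zero]
    | add F G hF hG => rw [mul_add, map_add, hF, hG, map_add, mul_add]
    | single b ω =>
      rw [mR, AddMonoidAlgebra.mapRingHom_single, AddMonoidAlgebra.single_mul_single, cf_single,
        cf_single, AddMonoidAlgebra.single_mul_single]
      congr 1
      rw [← Algebra.smul_def, map_smul, smul_eq_mul]

/-- All coefficients are in `P`. -/
def InP (P : Submodule k Ω) (F : AddMonoidAlgebra Ω L) : Prop := ∀ μ, F.coeff μ ∈ P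

theorem InP.sub {P : Submodule k Ω} {F G : AddMonoidAlgebra Ω L} (hF : InP P F) (hG : InP P G) :
    InP P (F - G) := by
  intro μ
  have : (F - G).coeff μ = F.coeff μ - G.coeff μ := by
    rw [sub_eq_add_neg, AddMonoidAlgebra.coeff_add, Finsupp.add_apply, AddMonoidAlgebra.coeff_neg,
      Finsupp.neg_apply, ← sub_eq_add_neg]
  rw [this]
  exact P.sub_mem (hF μ) (hG μ)

omit [AddCommGroup L] in
theorem InP.sum {P : Submodule k Ω} {κ : Type*} (S : Finset κ) (F : κ → AddMonoidAlgebra Ω L)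
    (hF : ∀ i ∈ S, InP P (F i)) : InP P (∑ i ∈ S, F i) := by
  intro μ
  rw [AddMonoidAlgebra.coeff_sum, Finsupp.finsetSum_apply]
  exact P.sum_mem fun i hi => hF i hi μ

theorem InP.mul {P₀ P₁ P₂ : Submodule k Ω} (h : P₀ * P₁ ≤ P₂) {F G : AddMonoidAlgebra Ω L}
    (hF : InP P₀ F) (hG : InP P₁ G) : InP P₂ (F * G) := by
  classical
  intro μ
  rw [AddMonoidAlgebra.coeff_mul]
  refine P₂.sum_mem fun a _ => P₂.sum_mem fun b _ => ?_
  simp only
  split_ifs
  · exact h (Submodule.mul_mem_mul (hF a) (hG b))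
  · exact P₂.zero_mem

omit [AddCommGroup L] in
theorem InP.single {P : Submodule k Ω} (a : L) {ω : Ω} (h : ω ∈ P) :
    InP P (AddMonoidAlgebra.single a ω) := by
  classical
  intro μ
  rw [AddMonoidAlgebra.coeff_single, Finsupp.single_apply]
  split_ifs
  · exact h
  · exact P.zero_mem

theorem InP.mR (g : AddMonoidAlgebra k L) : InP (1 : Submodule k Ω) (mR k Ω L g) := by
  intro μ
  rw [mR_coeff]
  exact Submodule.algebraMap_mem _

theorem InP.mR_mul {P : Submodule k Ω} (g : AddMonoidAlgebra k L) {F : AddMonoidAlgebra Ω L}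
    (hF : InP P F) : InP P (ALL.mR k Ω L g * F) :=
  InP.mul (by rw [one_mul]) (InP.mR g) hF

end Coef

/-! ## Specialisation -/

section Spec

variable {k Ω : Type u} [Field k] [Field Ω] [Algebra k Ω] {v : RVal Ω} {n r : ℕ}
  {ι : Type} [Fintype ι]

/-- The value of `x^l`. -/
noncomputable def lamT (T : TD k v r ι) : (Fin r → ℤ) →+ ℝ where
  toFun l := v (mx T.x l)
  map_zero' := by rw [mx_zero, v.map_one]
  map_add' l m := by
    rw [mx_add T.x_ne, v.map_mul (mx_ne T.x_ne l) (mx_ne T.x_ne m)]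

theorem lamT_apply (T : TD k v r ι) (l : Fin r → ℤ) : lamT T l = v (mx T.x l) := rfl

theorem lamT_injective (T : TD k v r ι) : Function.Injective (lamT T) := fun _ _ h => mx_inj T h

theorem chr_zero' (τ : Fin r → kˣ) : chr (k := k) (0 : Fin r → ℤ) τ = 1 := by
  simp [chr_apply]

theorem chr_add' (l m : Fin r → ℤ) (τ : Fin r → kˣ) :
    chr (k := k) (l + m) τ = chr l τ * chr m τ := by
  rw [chr_apply, chr_apply, chr_apply, ← Units.val_mul, ← Finset.prod_mul_distrib]
  congr 1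
  exact Finset.prod_congr rfl fun i _ => zpow_add _ _ _

theorem chr_ne (l : Fin r → ℤ) (τ : Fin r → kˣ) : chr (k := k) l τ ≠ 0 := by
  rw [chr_apply]
  exact Units.ne_zero _

/-- `(x/τ)^ν`. -/
noncomputable def xt (T : TD k v r ι) (τ : Fin r → kˣ) : Multiplicative (Fin r → ℤ) →* Ω where
  toFun ν := algebraMap k Ω (chr ν.toAdd τ)⁻¹ * mx T.x ν.toAdd
  map_one' := by
    change algebraMap k Ω (chr (0 : Fin r → ℤ) τ)⁻¹ * mx T.x 0 = 1
    rw [chr_zero', mx_zero, inv_one, map_one, one_mul]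
  map_mul' ν μ := by
    change algebraMap k Ω (chr (ν.toAdd + μ.toAdd) τ)⁻¹ * mx T.x (ν.toAdd + μ.toAdd) = _
    rw [chr_add', mx_add T.x_ne, mul_inv, map_mul]
    ring

theorem xt_apply (T : TD k v r ι) (τ : Fin r → kˣ) (ν : Fin r → ℤ) :
    xt T τ (Multiplicative.ofAdd ν) = algebraMap k Ω (chr ν τ)⁻¹ * mx T.x ν := rfl

/-- The specialisation `t = x/τ`. -/
noncomputable def sp (T : TD k v r ι) (τ : Fin r → kˣ) :
    AddMonoidAlgebra Ω (Fin r → ℤ) →ₐ[Ω] Ω :=
  AddMonoidAlgebra.lift Ω Ω (Fin r → ℤ) (xt T τ)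

theorem sp_apply (T : TD k v r ι) (τ : Fin r → kˣ) (F : AddMonoidAlgebra Ω (Fin r → ℤ)) :
    sp T τ F = F.coeff.sum fun ν c => c * (algebraMap k Ω (chr ν τ)⁻¹ * mx T.x ν) := by
  rw [sp, AddMonoidAlgebra.lift_apply]
  rfl

theorem sp_single (T : TD k v r ι) (τ : Fin r → kˣ) (ν : Fin r → ℤ) (c : Ω) :
    sp T τ (AddMonoidAlgebra.single ν c) = c * (algebraMap k Ω (chr ν τ)⁻¹ * mx T.x ν) := by
  rw [sp_apply, AddMonoidAlgebra.coeff_single, Finsupp.sum_single_index]
  rw [zero_mul]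

theorem sp_ofCoeff (T : TD k v r ι) (τ : Fin r → kˣ) (Q : (Fin r → ℤ) →₀ Ω) :
    sp T τ (AddMonoidAlgebra.ofCoeff Q) = Qat T.x Q τ := by
  rw [sp_apply, Qat, AddMonoidAlgebra.coeff_ofCoeff]
  refine Finsupp.sum_congr fun ν _ => ?_
  ring

theorem sp_mem_Axi (T : TD k v r ι) (τ : Fin r → kˣ) {F : AddMonoidAlgebra Ω (Fin r → ℤ)}
    (hF : ∀ ν, F.coeff ν ∈ Axi k T.x T.b) : sp T τ F ∈ Axi k T.x T.b := by
  rw [sp_apply]
  exact (Axi k T.x T.b).sum_mem fun ν _ => mul_mem (hF ν)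
    (mul_mem ((Axi k T.x T.b).algebraMap_mem _) (mx_mem_Axi _ _ _))

/-- A combination of monomials of non-negative value is its constant term plus an element of
`Is`. -/
theorem sp_mR_sub (T : TD k v r ι) (τ : Fin r → kˣ) (g : AddMonoidAlgebra k (Fin r → ℤ))
    (hg : Nn (lamT T) g) :
    sp T τ (mR k Ω _ g) - algebraMap k Ω (g.coeff 0) ∈ Is (k := k) v T.x T.b := by
  classical
  have h1 : algebraMap k Ω (g.coeff 0) = ∑ μ ∈ (mR k Ω (Fin r → ℤ) g).coeff.support,
      (if μ = 0 then algebraMap k Ω (g.coeff 0) else 0) := by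
    rw [Finset.sum_ite_eq']
    split_ifs with h
    · rfl
    · rw [Finsupp.notMem_support_iff, mR_coeff] at h
      exact h
  rw [sp_apply, Finsupp.sum, h1, ← Finset.sum_sub_distrib]
  refine Submodule.sum_mem _ fun μ hμ => ?_
  rw [Finsupp.mem_support_iff, mR_coeff] at hμ
  have hμ' : g.coeff μ ≠ 0 := fun h => hμ (by rw [h, map_zero])
  split_ifs with h
  · subst h
    rw [mR_coeff, chr_zero', mx_zero, inv_one, map_one, mul_one, mul_one, sub_self]
    exact Submodule.zero_mem _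
  · rw [sub_zero, mR_coeff, ← mul_assoc, ← map_mul]
    refine subset_span ⟨_, (Ab k T.b).algebraMap_mem _, μ, ?_, rfl⟩
    have h2 : 0 ≤ lamT T μ := not_lt.1 fun h0 => hμ' (hg μ h0)
    refine lt_of_le_of_ne h2 fun h3 => h ?_
    exact lamT_injective T (h3.symm.trans (map_zero _).symm)

/-- Specialisation of `G ∈ NN`. -/
theorem spec_mem (T : TD k v r ι) {X : Type*} [Fintype X] (w : X → Fin r → ℤ)
    (bb : X → Ab k T.b) (G : X → AddMonoidAlgebra k (Fin r → ℤ)) (hG : ∀ α, Nn (lamT T) (G α))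
    (H Q : AddMonoidAlgebra Ω (Fin r → ℤ)) (hH : ∀ ν, H.coeff ν ∈ Axi k T.x T.b)
    (hE : ∑ α, mR k Ω _ (G α) * AddMonoidAlgebra.single (-(w α)) ((bb α : Ω) * mx T.x (w α)) =
      Q * H) (τ : Fin r → kˣ) :
    ∑ α, ((G α).coeff 0 * chr (w α) τ) • bb α ∈ Jq v T.x T.b (sp T τ Q) := by
  classical
  have h1 := congrArg (sp T τ) hE
  rw [map_sum, map_mul] at h1
  have h2 : ∀ α, sp T τ (mR k Ω _ (G α) *
      AddMonoidAlgebra.single (-(w α)) ((bb α : Ω) * mx T.x (w α))) =
      sp T τ (mR k Ω _ (G α)) * (algebraMap k Ω (chr (w α) τ) * (bb α : Ω)) := by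
    intro α
    rw [map_mul, sp_single]
    have h3 : mx T.x (w α) * mx T.x (-(w α)) = 1 := by
      rw [← mx_add T.x_ne, add_neg_cancel, mx_zero]
    have h4 : (chr (k := k) (-(w α)) τ)⁻¹ = chr (w α) τ := by
      have h5 : chr (k := k) (w α) τ * chr (-(w α)) τ = 1 := by
        rw [← chr_add', add_neg_cancel, chr_zero']
      exact (eq_inv_of_mul_eq_one_left h5).symm
    rw [h4]
    linear_combination (sp T τ (mR k Ω _ (G α)) * algebraMap k Ω (chr (w α) τ) * (bb α : Ω)) * h3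
  rw [Finset.sum_congr rfl fun α _ => h2 α] at h1
  rw [mem_Jq]
  refine ⟨sp T τ H, sp_mem_Axi T τ hH, -∑ α, (algebraMap k Ω (chr (w α) τ) * (bb α : Ω)) *
    (sp T τ (mR k Ω _ (G α)) - algebraMap k Ω ((G α).coeff 0)), ?_, ?_⟩
  · refine Submodule.neg_mem _ (Submodule.sum_mem _ fun α _ => ?_)
    exact mul_mem_Is v T.x T.b (mul_mem ((Ab k T.b).algebraMap_mem _) (bb α).2)
      (sp_mR_sub T τ (G α) (hG α))
  · rw [← h1]
    have h3 : ((∑ α, ((G α).coeff 0 * chr (w α) τ) • bb α : Ab k T.b) : Ω) =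
        ∑ α, algebraMap k Ω ((G α).coeff 0) * (algebraMap k Ω (chr (w α) τ) * (bb α : Ω)) := by
      rw [← Subalgebra.coe_val, map_sum]
      refine Finset.sum_congr rfl fun α _ => ?_
      rw [map_smul, Algebra.smul_def, map_mul, mul_assoc]
    rw [h3, ← sub_eq_add_neg, ← Finset.sum_sub_distrib]
    refine Finset.sum_congr rfl fun α _ => ?_
    ring

end Spec

/-! ## The count -/

section Count

variable {k Ω : Type u} [Field k] [Field Ω] [Algebra k Ω] {v : RVal Ω} {n r : ℕ}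
  {ι : Type} [Fintype ι]

instance finite_Mon (N : ℕ) : Finite (Mon ι N) := by
  refine Finite.of_injective (fun α j => (⟨α.1 j, by
    have := Finset.single_le_sum (f := fun j => α.1 j) (fun _ _ => Nat.zero_le _)
      (Finset.mem_univ j)
    have h2 := α.2
    omega⟩ : Fin (N + 1))) ?_
  intro α β hαβ
  apply Subtype.ext
  funext j
  have := congrFun hαβ j
  exact congrArg Fin.val this

/-- The space `P`. -/
noncomputable abbrev PP (T : TD k v r ι) : Submodule k Ω :=
  span k (Set.range fun j => T.b j * mx T.x (T.a j))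

instance finite_PP (T : TD k v r ι) (N : ℕ) : FiniteDimensional k ↥(PP T ^ N) := by
  have hfg : (PP T).FG := Submodule.fg_span (Set.finite_range _)
  exact Module.Finite.iff_fg.mpr (hfg.pow _)

theorem PP_le_Axi (T : TD k v r ι) (N : ℕ) : PP T ^ N ≤ (Axi k T.x T.b).toSubmodule := by
  have h1 : PP T ≤ (Axi k T.x T.b).toSubmodule := by
    rw [PP, span_le]
    rintro _ ⟨j, rfl⟩
    exact (Axi k T.x T.b).mul_mem (Ab_le_Axi _ _ (b_mem T.b j)) (mx_mem_Axi _ _ _)
  induction N with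
  | zero =>
    rw [pow_zero, Submodule.one_le]
    exact (Axi k T.x T.b).one_mem
  | succ N ih =>
    rw [pow_succ]
    exact Submodule.mul_le.2 fun a ha b hb => (Axi k T.x T.b).mul_mem (ih ha) (h1 hb)

theorem fα_mem (T : TD k v r ι) {N : ℕ} (α : Mon ι N) :
    ∏ j, (T.b j * mx T.x (T.a j)) ^ α.1 j ∈ PP T ^ N := by
  classical
  have h1 : ∀ S : Finset ι, ∏ j ∈ S, (T.b j * mx T.x (T.a j)) ^ α.1 j ∈
      PP T ^ (∑ j ∈ S, α.1 j) := by
    intro S
    induction S using Finset.induction_on with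
    | empty => simp
    | insert a S ha ih =>
      rw [Finset.prod_insert ha, Finset.sum_insert ha, pow_add]
      exact Submodule.mul_mem_mul (Submodule.pow_mem_pow _ (subset_span (Set.mem_range_self a)) _) ih
  have h2 := h1 Finset.univ
  rw [α.2] at h2
  exact h2

/-- The weight of `α`. -/
def wt (T : TD k v r ι) {N : ℕ} (α : Mon ι N) : Fin r → ℤ := ∑ j, α.1 j • T.a j

/-- `b^α`. -/
def bα (T : TD k v r ι) {N : ℕ} (α : Mon ι N) : Ab k T.b :=
  ⟨∏ j, T.b j ^ α.1 j, prod_b_mem T α.1⟩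

theorem Th_single' (T : TD k v r ι) (s N : ℕ) (α : Mon ι N) (c : k) :
    Th T s N (Finsupp.single α c) = Finsupp.single (wt T α) (c • ub T s α.1) := by
  rw [Th_single, Finsupp.smul_single]
  rfl

theorem Th_graded (T : TD k v r ι) (s N : ℕ) :
    ∀ F ∈ LinearMap.range (Th T s N), ∀ ν, Finsupp.single ν (F ν) ∈ LinearMap.range (Th T s N) := by
  classical
  rintro _ ⟨c, rfl⟩ ν
  induction c using Finsupp.induction_linear with
  | zero =>
    rw [map_zero, Finsupp.zero_apply, Finsupp.single_zero]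
    exact Submodule.zero_mem _
  | add c d hc hd =>
    rw [map_add, Finsupp.add_apply, Finsupp.single_add]
    exact Submodule.add_mem _ hc hd
  | single α c =>
    rw [Th_single', Finsupp.single_apply]
    split_ifs with h
    · refine ⟨Finsupp.single α c, ?_⟩
      rw [Th_single', h]
    · rw [Finsupp.single_zero]
      exact Submodule.zero_mem _

theorem evT_Th (T : TD k v r ι) (s N : ℕ) [Fintype (Mon ι N)] (τ : Fin r → kˣ)
    (c : Mon ι N → k) :
    evT (k := k) τ (Th T s N ((Finsupp.linearEquivFunOnFinite k k (Mon ι N)).symm c)) =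
      Ideal.Quotient.mk _ (∑ α, (c α * chr (wt T α) τ) • bα T α) := by
  classical
  have h1 : (Finsupp.linearEquivFunOnFinite k k (Mon ι N)).symm c =
      ∑ α, Finsupp.single α (c α) := by
    ext β
    rw [Finsupp.finsetSum_apply, Finset.sum_eq_single β]
    · simp
    · intro α _ hα
      rw [Finsupp.single_apply, if_neg hα]
    · intro h; exact absurd (Finset.mem_univ _) h
  rw [h1, map_sum, map_sum, map_sum]
  refine Finset.sum_congr rfl fun α _ => ?_
  rw [Th_single', evT_apply, Finsupp.sum_single_index, smul_smul, mul_comm]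
  · rfl
  · exact smul_zero _

/-- R43: the count with the divisor. -/
theorem count4 [Infinite k] (_h : Ctx0 k v n) (T : TD k v r ι) (s s' t₀ hh : ℕ) (hs' : s' ≠ 0)
    (ht₀ : t₀ ≤ 2 * (s + s') - 1) (Q : (Fin r → ℤ) →₀ Ω) (hQ0 : Q ≠ 0)
    (hQ : ∀ l, Q l ∈ PP T ^ t₀) (Δ : AddMonoidAlgebra k (Fin r → ℤ)) (hΔ : Δ ≠ 0)
    (hJ : ∀ τ : Fin r → kˣ, evA τ Δ ≠ 0 →
      hh ≤ finrank k (Ab k T.b ⧸ (Jq v T.x T.b (Qat T.x Q τ) ⊔ nId k T.b ^ s))) :
    Fintype.card ι * (hh * (s' - 1 + r).choose r) + finrank k ↥(PP T ^ (2 * (s + s') - 1 - t₀)) ≤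
      finrank k ↥(PP T ^ (2 * (s + s') - 1)) := by
  classical
  obtain ⟨c, hc⟩ := jets_onto T s s'
  set N := 2 * (s + s') - 1 with hN
  have hX : Fintype (Mon ι N) := Fintype.ofFinite _
  -- the maps
  set d₁ := finrank k ↥(PP T ^ (N - t₀)) with hd₁
  set d₂ := finrank k ↥(PP T ^ N) with hd₂
  set g₁ := finBasis k ↥(PP T ^ (N - t₀)) with hg₁
  obtain ⟨π, hπ⟩ := LinearMap.exists_extend (finBasis k ↥(PP T ^ N)).equivFun.toLinearMap
  have hπ0 : ∀ ω ∈ PP T ^ N, π ω = 0 → ω = 0 := by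
    intro ω hω h0
    have h1 : (finBasis k ↥(PP T ^ N)).equivFun ⟨ω, hω⟩ = 0 := by
      rw [← h0]
      exact (LinearMap.congr_fun hπ ⟨ω, hω⟩).symm
    have h2 := (finBasis k ↥(PP T ^ N)).equivFun.map_eq_zero_iff.1 h1
    exact congrArg Subtype.val h2
  set θ : Fin d₂ → (Ω →ₗ[k] k) := fun i => (LinearMap.proj i).comp π with hθ
  set fa : Mon ι N → AddMonoidAlgebra Ω (Fin r → ℤ) := fun α =>
    AddMonoidAlgebra.single (-(wt T α)) ((bα T α : Ω) * mx T.x (wt T α)) with hfa
  set Q' : AddMonoidAlgebra Ω (Fin r → ℤ) := AddMonoidAlgebra.ofCoeff Q with hQ'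
  set ga : Fin d₁ → AddMonoidAlgebra Ω (Fin r → ℤ) := fun j =>
    AddMonoidAlgebra.single 0 ((g₁ j : ↥(PP T ^ (N - t₀))) : Ω) with hga
  set φ : (Mon ι N → AddMonoidAlgebra k (Fin r → ℤ)) →ₗ[AddMonoidAlgebra k (Fin r → ℤ)]
      (Fin d₂ → AddMonoidAlgebra k (Fin r → ℤ)) :=
    Fintype.linearCombination _ (fun α i => cf (θ i) (fa α)) with hφ
  set ψ : (Fin d₁ → AddMonoidAlgebra k (Fin r → ℤ)) →ₗ[AddMonoidAlgebra k (Fin r → ℤ)]
      (Fin d₂ → AddMonoidAlgebra k (Fin r → ℤ)) :=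
    Fintype.linearCombination _ (fun j i => cf (θ i) (Q' * ga j)) with hψ
  have hφ1 : ∀ G i, φ G i = cf (θ i) (∑ α, mR k Ω _ (G α) * fa α) := by
    intro G i
    rw [hφ, Fintype.linearCombination_apply, Finset.sum_apply, map_sum]
    refine Finset.sum_congr rfl fun α _ => ?_
    rw [Pi.smul_apply, smul_eq_mul, cf_mul]
  have hψ1 : ∀ H i, ψ H i = cf (θ i) (Q' * ∑ j, mR k Ω _ (H j) * ga j) := by
    intro H i
    rw [hψ, Fintype.linearCombination_apply, Finset.sum_apply, Finset.mul_sum, map_sum]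
    refine Finset.sum_congr rfl fun j _ => ?_
    rw [Pi.smul_apply, smul_eq_mul, ← cf_mul]
    congr 1
    ring
  have hQ'P : InP (PP T ^ t₀) Q' := hQ
  have hgaP : ∀ H : Fin d₁ → AddMonoidAlgebra k (Fin r → ℤ),
      InP (PP T ^ (N - t₀)) (∑ j, mR k Ω _ (H j) * ga j) := fun H =>
    InP.sum _ _ fun j _ => InP.mR_mul _ (InP.single _ (g₁ j).2)
  have hQgP : ∀ H : Fin d₁ → AddMonoidAlgebra k (Fin r → ℤ),
      InP (PP T ^ N) (Q' * ∑ j, mR k Ω _ (H j) * ga j) := fun H =>
    InP.mul (by rw [← pow_add, Nat.add_sub_cancel' ht₀]) hQ'P (hgaP H)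
  have hfaP : ∀ G : Mon ι N → AddMonoidAlgebra k (Fin r → ℤ),
      InP (PP T ^ N) (∑ α, mR k Ω _ (G α) * fa α) := fun G =>
    InP.sum _ _ fun α _ => InP.mR_mul _ (InP.single _ (by
      have h1 := fα_mem T α
      rw [prod_f] at h1
      exact h1))
  have hcf0 : ∀ F : AddMonoidAlgebra Ω (Fin r → ℤ), InP (PP T ^ N) F → (∀ i, cf (θ i) F = 0) →
      F = 0 := by
    intro F hF h0
    rw [← AddMonoidAlgebra.coeff_eq_zero]
    ext μ
    refine hπ0 _ (hF μ) ?_
    funext i
    have h1 := congrArg (fun G => G.coeff μ) (h0 i)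
    exact h1
  have hnz : NoZeroDivisors (AddMonoidAlgebra Ω (Fin r → ℤ)) :=
    noZeroDivisors_of_val (lamT T) (lamT_injective T)
  have hQ'0 : Q' ≠ 0 := by
    intro h0
    exact hQ0 (AddMonoidAlgebra.coeff_eq_zero.2 h0)
  have hψinj : Function.Injective ψ := by
    rw [← LinearMap.ker_eq_bot, LinearMap.ker_eq_bot']
    intro H hH
    have h1 : Q' * ∑ j, mR k Ω _ (H j) * ga j = 0 := hcf0 _ (hQgP H) fun i => by
      rw [← hψ1, hH]; rfl
    have h2 : ∑ j, mR k Ω _ (H j) * ga j = 0 := by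
      rcases mul_eq_zero.1 h1 with h3 | h3
      · exact absurd h3 hQ'0
      · exact h3
    funext j
    rw [Pi.zero_apply, ← AddMonoidAlgebra.coeff_eq_zero]
    ext μ
    have h3 := congrArg (fun G => G.coeff μ) h2
    simp only [AddMonoidAlgebra.coeff_sum, Finsupp.finsetSum_apply, AddMonoidAlgebra.coeff_zero,
      Finsupp.zero_apply] at h3
    have h4 : ∀ j, (mR k Ω _ (H j) * ga j).coeff μ = (H j).coeff μ • ((g₁ j :
        ↥(PP T ^ (N - t₀))) : Ω) := by
      intro j
      rw [hga, mul_comm, single_mul_coeff, neg_zero, zero_add, mR_coeff, Algebra.smul_def, mul_comm]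
    rw [Finset.sum_congr rfl fun j _ => h4 j] at h3
    have h5 : ∑ j, (H j).coeff μ • g₁ j = 0 := by
      apply Subtype.ext
      rw [Submodule.coe_sum]
      exact h3
    exact Fintype.linearIndependent_iff.1 g₁.linearIndependent _ h5 j
  have hR41 := card_add_card_le (lamT T) (lamT_injective T) φ ψ hψinj
  set I0 := InS (lamT T) ((LinearMap.range ψ).comap φ) with hI0
  rw [Fintype.card_fin, Fintype.card_fin] at hR41
  -- `Θ`
  set Θ : (Mon ι N → k) →ₗ[k] ((Fin r → ℤ) →₀ UU T s) :=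
    (Th T s N).comp (Finsupp.linearEquivFunOnFinite k k (Mon ι N)).symm.toLinearMap with hΘ
  have hrange : LinearMap.range Θ = LinearMap.range (Th T s N) := by
    rw [hΘ, LinearMap.range_comp, LinearEquiv.range, Submodule.map_top]
  have hUfin : Module.Finite k (UU T s) := finite_beta T s
  have hGGfin : FiniteDimensional k (LinearMap.range (Th T s N)) := by
    rw [← hrange]; infer_instance
  have hkey := tdeg (lamT T) (lamT_injective T) (LinearMap.range (Th T s N)) (I0.map Θ)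
    (Th_graded T s N) (by
      rw [← hrange]; exact LinearMap.map_le_range) c hc Δ hΔ hh (by
    intro τ hτ
    have h1 := hJ τ hτ
    have hle : aId v T.x T.b ⊔ nId k T.b ^ s ≤ Jq v T.x T.b (Qat T.x Q τ) ⊔ nId k T.b ^ s :=
      sup_le_sup_right (aId_le_Jq v T.x T.b _) _
    set F := (Ideal.Quotient.factorₐ k hle).toLinearMap with hF
    have h2 := LinearMap.finrank_range_add_finrank_ker F
    have h3 : LinearMap.range F = ⊤ :=
      LinearMap.range_eq_top.2 (Ideal.Quotient.factor_surjective hle)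
    rw [h3, finrank_top] at h2
    have h4 : (I0.map Θ).map (evT (k := k) τ) ≤ LinearMap.ker F := by
      rintro _ ⟨_, ⟨u, ⟨G, ⟨H, hH⟩, hG1, hG2⟩, rfl⟩, rfl⟩
      rw [LinearMap.mem_ker]
      have h5 : ∑ α, mR k Ω _ (G α) * fa α = Q' * ∑ j, mR k Ω _ (H j) * ga j := by
        rw [← sub_eq_zero]
        refine hcf0 _ ((hfaP G).sub (hQgP H)) fun i => ?_
        rw [map_sub, ← hφ1, ← hψ1, hH, sub_self]
      have h6 := spec_mem T (wt T) (bα T) G hG1 _ Q' (fun ν => PP_le_Axi T _ (hgaP H ν)) h5 τ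
      rw [hQ', sp_ofCoeff] at h6
      have h7 : evT (k := k) τ (Θ u) = Ideal.Quotient.mk _ (∑ α, (u α * chr (wt T α) τ) • bα T α) :=
        evT_Th T s N τ u
      rw [h7]
      have h8 : ∀ α, (G α).coeff 0 = u α := hG2
      have h9 : F (Ideal.Quotient.mk _ (∑ α, (u α * chr (wt T α) τ) • bα T α)) =
          Ideal.Quotient.mk _ (∑ α, (u α * chr (wt T α) τ) • bα T α) := rfl
      rw [h9, Ideal.Quotient.eq_zero_iff_mem]
      refine Ideal.mem_sup_left ?_
      have h10 : ∑ α, (u α * chr (wt T α) τ) • bα T α =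
          ∑ α, ((G α).coeff 0 * chr (wt T α) τ) • bα T α :=
        Finset.sum_congr rfl fun α _ => by rw [h8 α]
      rw [h10]
      exact h6
    have h5 : finrank k ((I0.map Θ).map (evT (k := k) τ)) ≤ finrank k (LinearMap.ker F) :=
      Submodule.finrank_mono h4
    calc finrank k ((I0.map Θ).map (evT (k := k) τ)) + hh ≤ finrank k (LinearMap.ker F) +
          finrank k (Ab k T.b ⧸ (Jq v T.x T.b (Qat T.x Q τ) ⊔ nId k T.b ^ s)) := add_le_add h5 h1
      _ = _ := by rw [add_comm]; exact h2)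
  have hΘ1 := LinearMap.finrank_range_add_finrank_ker Θ
  rw [hrange, finrank_fintype_fun_eq_card] at hΘ1
  have hΘ2 := finrank_map_add I0 Θ
  have hΘ3 : finrank k (I0 ⊓ LinearMap.ker Θ : Submodule k (Mon ι N → k)) ≤
      finrank k (LinearMap.ker Θ) := Submodule.finrank_mono inf_le_right
  have hcard := card_jets ι r s' hs'
  rw [hcard] at hkey
  have hcomm : Fintype.card ι * (hh * (s' - 1 + r).choose r) =
      Fintype.card ι * (s' - 1 + r).choose r * hh := by ring
  rw [hcomm]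
  omega

end Count

end Pool.Agent.ALL
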