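import Pool.Agent.Lib.ALL.J4c
import Pool.Agent.Lib.ALB.Adic

/-!
# ALLDEFECT, block 4, row R44: the numerics (fixed `s`) and the final form of block 4
-/

set_option autoImplicit false

namespace Pool.Agent.ALL

open Pool.Agent.H15JM (RVal)
open Pool.Agent.LU1 (VPos)
open Pool.Agent.LU3 (Ctx0)
open Pool.Agent.TA
open Pool.Agent.AD78 (evA evT jets)
open Submodule Module

universe u

/-- `M₁ = t₀ 4^(n-1) n!`. -/
def M1n (n t₀ : ℕ) : ℕ := t₀ * 4 ^ (n - 1) * n.factorial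

theorem pow_add_le (n y t : ℕ) :
    (y + t) ^ (n + 1) ≤ y ^ (n + 1) + (n + 1) * t * (y + t) ^ n := by
  induction n with
  | zero => simp
  | succ n ih =>
    have h2 : y ^ (n + 1) * (y + t) = y ^ (n + 1 + 1) + t * y ^ (n + 1) := by ring
    have h3 : y ^ (n + 1) ≤ (y + t) ^ (n + 1) := Nat.pow_le_pow_left (Nat.le_add_right y t) _
    calc (y + t) ^ (n + 1 + 1) = (y + t) ^ (n + 1) * (y + t) := pow_succ _ _
      _ ≤ (y ^ (n + 1) + (n + 1) * t * (y + t) ^ n) * (y + t) := Nat.mul_le_mul_right _ ih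
      _ = y ^ (n + 1 + 1) + t * y ^ (n + 1) + (n + 1) * t * (y + t) ^ (n + 1) := by ring
      _ ≤ y ^ (n + 1 + 1) + t * (y + t) ^ (n + 1) + (n + 1) * t * (y + t) ^ (n + 1) := by
          gcongr
      _ = y ^ (n + 1 + 1) + (n + 1 + 1) * t * (y + t) ^ (n + 1) := by ring

theorem pow_le_fact_choose (D x : ℕ) (hx : 1 ≤ x) :
    x ^ D ≤ D.factorial * (x - 1 + D).choose D := by
  obtain ⟨s, rfl⟩ : ∃ s, x = s + 1 := ⟨x - 1, by omega⟩
  rw [Nat.add_sub_cancel, ← Nat.ascFactorial_eq_factorial_mul_choose]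
  exact Nat.pow_succ_le_ascFactorial (s + 1) D

theorem fact_fact_le (d e : ℕ) :
    (d + 1).factorial * (e + 1).factorial ≤ (d + 1 + e).factorial := by
  induction e with
  | zero => simp
  | succ e ih =>
    have e1 : d + 1 + (e + 1) = (d + 1 + e) + 1 := by omega
    rw [e1, Nat.factorial_succ (d + 1 + e), Nat.factorial_succ (e + 1)]
    calc (d + 1).factorial * ((e + 1 + 1) * (e + 1).factorial)
        = (e + 1 + 1) * ((d + 1).factorial * (e + 1).factorial) := by ring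
      _ ≤ (d + 1 + e + 1) * (d + 1 + e).factorial := Nat.mul_le_mul (by omega) ih

/-- R44b (helper77). -/
theorem num_c1 {D r n t₀ : ℕ} (hn : n = r + D) (hD : 1 ≤ D) (hr : 1 ≤ r) (ht₀ : 1 ≤ t₀) :
    (4 * M1n n t₀ - 1) ^ n < (4 * M1n n t₀ - 1 - t₀) ^ n +
      ND D (M1n n t₀) * (M1n n t₀ - 1 + r).choose r := by
  obtain ⟨d, rfl⟩ : ∃ d, D = d + 1 := ⟨D - 1, by omega⟩
  obtain ⟨e, rfl⟩ : ∃ e, r = e + 1 := ⟨r - 1, by omega⟩
  obtain ⟨N, hN⟩ : ∃ N, n = N + 1 := ⟨d + e + 1, by omega⟩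
  subst hN
  have hNe : N = d + 1 + e := by omega
  have hM : M1n (N + 1) t₀ = t₀ * 4 ^ N * (N + 1).factorial := rfl
  have hf1 : 1 ≤ (N + 1).factorial := Nat.factorial_pos _
  have h4 : 1 ≤ 4 ^ N := Nat.one_le_pow _ _ (by norm_num)
  have hMt : t₀ ≤ M1n (N + 1) t₀ := by
    rw [hM, mul_assoc]
    exact Nat.le_mul_of_pos_right _ (Nat.mul_pos h4 hf1)
  generalize hMM : M1n (N + 1) t₀ = M at hM hMt ⊢
  have hM1 : 1 ≤ M := le_trans ht₀ hMt
  have hND : ND (d + 1) M = (M - 1 + (d + 1)).choose (d + 1) := if_neg (by omega)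
  rw [hND]
  -- the left side
  have h5 : 4 * M - 1 - t₀ + t₀ = 4 * M - 1 := by omega
  have h6 := pow_add_le N (4 * M - 1 - t₀) t₀
  rw [h5] at h6
  refine lt_of_le_of_lt h6 (Nat.add_lt_add_left ?_ _)
  -- (N+1) t₀ (4M-1)^N < (4 M)^N (N+1) t₀ ≤ right
  have h7 : (4 * M - 1) ^ N < (4 * M) ^ N := Nat.pow_lt_pow_left (by omega) (by omega)
  have h8 : (N + 1) * t₀ * (4 * M - 1) ^ N < (N + 1) * t₀ * (4 * M) ^ N :=
    Nat.mul_lt_mul_of_pos_left h7 (Nat.mul_pos (Nat.succ_pos _) ht₀)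
  refine lt_of_lt_of_le h8 ?_
  -- multiply by D! r!
  have hfp : 0 < (d + 1).factorial * (e + 1).factorial :=
    Nat.mul_pos (Nat.factorial_pos _) (Nat.factorial_pos _)
  refine Nat.le_of_mul_le_mul_left ?_ hfp
  have h9 : M ^ (d + 1) * M ^ (e + 1) ≤ ((d + 1).factorial * (M - 1 + (d + 1)).choose (d + 1)) *
      ((e + 1).factorial * (M - 1 + (e + 1)).choose (e + 1)) :=
    Nat.mul_le_mul (pow_le_fact_choose _ _ hM1) (pow_le_fact_choose _ _ hM1)
  have h10 : (d + 1).factorial * (e + 1).factorial ≤ N.factorial := by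
    rw [hNe]; exact fact_fact_le d e
  calc (d + 1).factorial * (e + 1).factorial * ((N + 1) * t₀ * (4 * M) ^ N)
      ≤ N.factorial * ((N + 1) * t₀ * (4 * M) ^ N) := Nat.mul_le_mul_right _ h10
    _ = (t₀ * 4 ^ N * ((N + 1) * N.factorial)) * M ^ N := by rw [mul_pow]; ring
    _ = M * M ^ N := by rw [← Nat.factorial_succ, ← hM]
    _ = M ^ (d + 1) * M ^ (e + 1) := by
        rw [← pow_add, ← pow_succ']
        congr 1
        omega
    _ ≤ _ := h9
    _ = _ := by ring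

/-- R44a (helper77). -/
theorem liminf_contra {n N t₀ c₁ : ℕ} (a : ℕ → ℕ) (ha : Monotone a)
    (hlow : ∃ c : ℝ, 0 < c ∧ ∀ t : ℕ, c * (t : ℝ) ^ n ≤ a t)
    (hup : ∃ C : ℕ, ∀ t, a t ≤ C * (t + 1) ^ n) (hN : 1 ≤ N) (_ht₀ : t₀ ≤ N)
    (hc : N ^ n < (N - t₀) ^ n + c₁) (m₀ : ℕ)
    (H : ∀ m ≥ m₀, a (m * (N - t₀)) + c₁ * a m ≤ a (m * N)) : False := by
  obtain ⟨c, hc0, hlow⟩ := hlow
  obtain ⟨C, hC⟩ := hup
  rcases Nat.eq_zero_or_pos n with hn0 | hn1
  · subst hn0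
    have hc1 : 1 ≤ c₁ := by
      have h1 : 0 < c₁ := by simpa using hc
      omega
    have ha1 : ∀ t, 1 ≤ a t := by
      intro t
      have h1 := hlow t
      rw [pow_zero, mul_one] at h1
      have h2 : (0 : ℝ) < a t := lt_of_lt_of_le hc0 h1
      exact_mod_cast h2
    have hit : ∀ k : ℕ, ∃ m ≥ m₀, k ≤ a m := by
      intro k
      induction k with
      | zero => exact ⟨m₀, le_rfl, Nat.zero_le _⟩
      | succ k ih =>
        obtain ⟨m, hm, hk⟩ := ih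
        refine ⟨m * N, le_trans hm (Nat.le_mul_of_pos_right _ hN), ?_⟩
        have h1 := H m hm
        have h2 := ha1 (m * (N - t₀))
        have h3 : a m ≤ c₁ * a m := Nat.le_mul_of_pos_left _ hc1
        omega
    obtain ⟨m, -, hm⟩ := hit (C + 1)
    have := hC m
    rw [pow_zero, mul_one] at this
    omega
  -- n ≥ 1
  have hNr : (0 : ℝ) < N := by exact_mod_cast hN
  have hNn : (0 : ℝ) < (N : ℝ) ^ n := by positivity
  set lam : ℝ := (((N - t₀ : ℕ) : ℝ) ^ n + c₁) / (N : ℝ) ^ n with hlam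
  have hlam1 : 1 < lam := by
    rw [hlam, one_lt_div hNn]
    exact_mod_cast hc
  have hlam0 : 0 < lam := by linarith
  set mu : ℝ := (1 + lam) / 2 with hmu
  have hmu1 : 1 < mu := by rw [hmu]; linarith
  have hmulam : mu / lam < 1 := by rw [div_lt_one hlam0, hmu]; linarith
  -- the step
  have hstep : ∀ β : ℝ, 0 ≤ β → (∃ T : ℕ, ∀ t ≥ T, β * (t : ℝ) ^ n ≤ a t) →
      ∃ T : ℕ, ∀ t ≥ T, (mu * β) * (t : ℝ) ^ n ≤ a t := by
    rintro β hβ ⟨T, hT⟩
    -- (1 - N/t)^n → 1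
    have hlim : Filter.Tendsto (fun t : ℕ => (1 - (N : ℝ) / t) ^ n) Filter.atTop (nhds 1) := by
      have h1 : Filter.Tendsto (fun t : ℕ => 1 - (N : ℝ) / t) Filter.atTop (nhds (1 - 0)) :=
        tendsto_const_nhds.sub (tendsto_const_div_atTop_nhds_zero_nat (N : ℝ))
      rw [sub_zero] at h1
      simpa using h1.pow n
    obtain ⟨t₁, ht₁⟩ := (hlim.eventually (lt_mem_nhds hmulam)).exists_forall_of_atTop
    refine ⟨max t₁ (N * (T + m₀ + 1)), fun t ht => ?_⟩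
    have htt₁ : t₁ ≤ t := le_trans (le_max_left _ _) ht
    have htN : N * (T + m₀ + 1) ≤ t := le_trans (le_max_right _ _) ht
    have hθ := ht₁ t htt₁
    set m : ℕ := t / N with hm
    have hmN : m * N ≤ t := Nat.div_mul_le_self t N
    have hmT : T + m₀ + 1 ≤ m := by
      rw [hm, Nat.le_div_iff_mul_le (by omega), mul_comm]
      exact htN
    have htlt : t < m * N + N := by
      have := Nat.lt_div_mul_add (a := t) (b := N) (by omega)
      rw [← hm] at this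
      exact this
    have htpos : (0 : ℝ) < t := by
      have : 0 < t := lt_of_lt_of_le (Nat.mul_pos (by omega) (by omega)) htN
      exact_mod_cast this
    -- lower bounds
    have h1 : β * (m : ℝ) ^ n ≤ a m := hT m (by omega)
    have h2 : β * ((m : ℝ) * ((N - t₀ : ℕ) : ℝ)) ^ n ≤ a (m * (N - t₀)) := by
      rcases Nat.eq_zero_or_pos (N - t₀) with h0 | h0
      · rw [h0, Nat.cast_zero, mul_zero, zero_pow hn1.ne', mul_zero]
        exact Nat.cast_nonneg _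
      · have h3 := hT (m * (N - t₀)) (by
          have : m ≤ m * (N - t₀) := Nat.le_mul_of_pos_right _ h0
          omega)
        rw [Nat.cast_mul] at h3
        exact h3
    have h3 : (a (m * (N - t₀)) : ℝ) + c₁ * a m ≤ a (m * N) := by
      exact_mod_cast H m (by omega)
    have h4 : (a (m * N) : ℝ) ≤ a t := by exact_mod_cast ha hmN
    have h5 : lam * β * ((m : ℝ) * N) ^ n ≤ a t := by
      refine le_trans ?_ (le_trans h3 h4)
      have h6 : (c₁ : ℝ) * (β * (m : ℝ) ^ n) ≤ c₁ * a m :=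
        mul_le_mul_of_nonneg_left h1 (Nat.cast_nonneg _)
      calc lam * β * ((m : ℝ) * N) ^ n
          = (lam * (N : ℝ) ^ n) * (β * (m : ℝ) ^ n) := by rw [mul_pow]; ring
        _ = (((N - t₀ : ℕ) : ℝ) ^ n + c₁) * (β * (m : ℝ) ^ n) := by
            rw [hlam, div_mul_cancel₀ _ hNn.ne']
        _ = β * ((m : ℝ) * ((N - t₀ : ℕ) : ℝ)) ^ n + c₁ * (β * (m : ℝ) ^ n) := by
            rw [mul_pow]; ring
        _ ≤ _ := add_le_add h2 h6
    refine le_trans ?_ h5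
    have h7 : (t : ℝ) - N ≤ (m : ℝ) * N := by
      have : (t : ℝ) ≤ (m : ℝ) * N + N := by exact_mod_cast htlt.le
      linarith
    have h8 : (0 : ℝ) ≤ (t : ℝ) - N := by
      have : (N : ℝ) ≤ t := by
        have h9 : N ≤ t := le_trans (Nat.le_mul_of_pos_right _ (by omega)) htN
        exact_mod_cast h9
      linarith
    have h9 : mu * (t : ℝ) ^ n ≤ lam * ((t : ℝ) - N) ^ n := by
      have h10 : (1 - (N : ℝ) / t) ^ n * (t : ℝ) ^ n = ((t : ℝ) - N) ^ n := by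
        rw [← mul_pow, sub_mul, one_mul, div_mul_cancel₀ _ htpos.ne']
      rw [← h10]
      have h11 : mu / lam * (t : ℝ) ^ n ≤ (1 - (N : ℝ) / t) ^ n * (t : ℝ) ^ n :=
        mul_le_mul_of_nonneg_right hθ.le (by positivity)
      calc mu * (t : ℝ) ^ n = lam * (mu / lam * (t : ℝ) ^ n) := by field_simp
        _ ≤ _ := mul_le_mul_of_nonneg_left h11 hlam0.le
    calc mu * β * (t : ℝ) ^ n = β * (mu * (t : ℝ) ^ n) := by ring
      _ ≤ β * (lam * ((t : ℝ) - N) ^ n) := mul_le_mul_of_nonneg_left h9 hβ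
      _ ≤ β * (lam * ((m : ℝ) * N) ^ n) := by gcongr
      _ = lam * β * ((m : ℝ) * N) ^ n := by ring
  -- iterate
  have hall : ∀ k : ℕ, ∃ T : ℕ, ∀ t ≥ T, (mu ^ k * c) * (t : ℝ) ^ n ≤ a t := by
    intro k
    induction k with
    | zero => exact ⟨0, fun t _ => by rw [pow_zero, one_mul]; exact hlow t⟩
    | succ k ih =>
      obtain ⟨T, hT⟩ := hstep (mu ^ k * c) (by positivity) ih
      refine ⟨T, fun t ht => ?_⟩
      have := hT t ht
      rw [pow_succ', mul_assoc mu]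
      exact this
  obtain ⟨k, hk⟩ := pow_unbounded_of_one_lt ((C * 2 ^ n + 1) / c) hmu1
  obtain ⟨T, hT⟩ := hall k
  have h1 := hT (T + 1) (by omega)
  have h2 : (a (T + 1) : ℝ) ≤ C * ((T + 1 : ℕ) + 1 : ℝ) ^ n := by exact_mod_cast hC (T + 1)
  have hTp : (1 : ℝ) ≤ ((T + 1 : ℕ) : ℝ) := by
    have : 1 ≤ T + 1 := by omega
    exact_mod_cast this
  have h3 : (C : ℝ) * (((T + 1 : ℕ) : ℝ) + 1) ^ n ≤ C * 2 ^ n * ((T + 1 : ℕ) : ℝ) ^ n := by
    rw [mul_assoc, ← mul_pow]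
    gcongr
    linarith
  rw [div_lt_iff₀ hc0] at hk
  have h4 : (0 : ℝ) < ((T + 1 : ℕ) : ℝ) ^ n := by positivity
  have h5 : (C * 2 ^ n + 1) * ((T + 1 : ℕ) : ℝ) ^ n ≤ (mu ^ k * c) * ((T + 1 : ℕ) : ℝ) ^ n := by
    gcongr
  nlinarith

section Final

variable {k Ω : Type u} [Field k] [Field Ω] [Algebra k Ω] {v : RVal Ω} {n r D : ℕ}

/-- R44d: the final form of block 4. If for all large `m` the divisor condition had
full codimension `N_D(M₁)` in `B / n^(M₁)` for all `τ` outside a hypersurface: contradiction. -/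
theorem no_full [Infinite k] (h : Ctx0 k v n) (hn : n = r + D) (hD : 1 ≤ D) (hr : 1 ≤ r)
    (V : Submodule k Ω) (hV : (1 : Ω) ∈ V) [FiniteDimensional k V]
    (hlow : ∃ c : ℝ, 0 < c ∧ ∀ t : ℕ, c * (t : ℝ) ^ n ≤ finrank k ↥(V ^ t))
    (hup : ∃ C : ℕ, ∀ t, finrank k ↥(V ^ t) ≤ C * (t + 1) ^ n) (m₀ t₀ : ℕ) (ht₀ : 1 ≤ t₀)
    (H : ∀ m ≥ m₀, ∃ (T : TD k v r (Fin (finrank k ↥(V ^ m)))) (f₀ : Ω)
      (Q : (Fin r → ℤ) →₀ Ω) (Δ : AddMonoidAlgebra k (Fin r → ℤ)), f₀ ≠ 0 ∧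
      PP T = span k {f₀⁻¹} * V ^ m ∧ Q ≠ 0 ∧ (∀ l, Q l ∈ PP T ^ t₀) ∧ Δ ≠ 0 ∧
      ∀ τ : Fin r → kˣ, evA τ Δ ≠ 0 → ND D (M1n n t₀) ≤
        finrank k (Ab k T.b ⧸ (Jq v T.x T.b (Qat T.x Q τ) ⊔ nId k T.b ^ (M1n n t₀)))) :
    False := by
  have hMt : t₀ ≤ M1n n t₀ := by
    unfold M1n
    rw [mul_assoc]
    exact Nat.le_mul_of_pos_right _ (Nat.mul_pos (Nat.pow_pos (by norm_num))
      (Nat.factorial_pos _))
  have hfin : ∀ t, FiniteDimensional k ↥(V ^ t) := fun t =>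
    Module.Finite.iff_fg.mpr (Submodule.FG.pow (Module.Finite.iff_fg.mp inferInstance) t)
  have hmono : Monotone fun t => finrank k ↥(V ^ t) := by
    intro t t' htt
    have := hfin t'
    refine Submodule.finrank_mono ?_
    exact pow_le_pow_right₀ (Submodule.one_le.2 hV) htt
  have hnum := num_c1 hn hD hr ht₀
  have hN : 1 ≤ 4 * M1n n t₀ - 1 := by omega
  have htN : t₀ ≤ 4 * M1n n t₀ - 1 := by omega
  refine liminf_contra (fun t => finrank k ↥(V ^ t)) hmono hlow hup hN htN hnum m₀ ?_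
  intro m hm
  obtain ⟨T, f₀, Q, Δ, hf₀, hPP, hQ0, hQ, hΔ, hJ⟩ := H m hm
  have hs' : M1n n t₀ ≠ 0 := by omega
  have e1 : 2 * (M1n n t₀ + M1n n t₀) - 1 = 4 * M1n n t₀ - 1 := by omega
  have hc := count4 h T (M1n n t₀) (M1n n t₀) t₀ (ND D (M1n n t₀)) hs' (by omega) Q hQ0 hQ Δ hΔ hJ
  rw [e1, Fintype.card_fin, hPP, ALB.finrank_span_inv_mul_pow hf₀,
    ALB.finrank_span_inv_mul_pow hf₀, ← pow_mul, ← pow_mul] at hc
  show finrank k ↥(V ^ (m * (4 * M1n n t₀ - 1 - t₀))) +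
    ND D (M1n n t₀) * (M1n n t₀ - 1 + r).choose r * finrank k ↥(V ^ m) ≤
      finrank k ↥(V ^ (m * (4 * M1n n t₀ - 1)))
  rw [add_comm, mul_comm (ND D (M1n n t₀) * _)]
  exact hc

end Final

end Pool.Agent.ALL
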