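import Mathlib

/-!
# ALLDEFECT: growth of a monotone function of degree `n`
-/

set_option autoImplicit false

namespace Pool.Agent.ALL

open Filter Topology

/-- one step: the lower bound is multiplied by `κ > 1` -/
theorem liminf_step {a : ℕ → ℝ} (ha : Monotone a) {n N e m0 : ℕ} {c1 κ b : ℝ}
    (hN : 0 < N) (he : 0 < e) (hc1 : 0 ≤ c1)
    (h : ∀ m, m0 ≤ m → a (m * e) + c1 * a m ≤ a (m * N))
    (hκ : κ * N ^ n < e ^ n + c1) (hκ0 : 0 ≤ κ) (hb : 0 ≤ b)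
    (hS : ∃ T : ℕ, ∀ t, T ≤ t → b * t ^ n ≤ a t) :
    ∃ T : ℕ, ∀ t, T ≤ t → b * κ * t ^ n ≤ a t := by
  obtain ⟨T, hT⟩ := hS
  have hlim : Tendsto (fun m : ℕ => κ * N ^ n * (1 + (1 : ℝ) / m) ^ n) atTop
      (𝓝 (κ * N ^ n * (1 + 0) ^ n)) := by
    refine Tendsto.const_mul _ (Tendsto.pow ?_ n)
    exact tendsto_const_nhds.add tendsto_one_div_atTop_nhds_zero_nat
  rw [add_zero, one_pow, mul_one] at hlim
  have hev := hlim.eventually (gt_mem_nhds hκ)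
  obtain ⟨m1, hm1⟩ := eventually_atTop.1 hev
  obtain ⟨M, hM⟩ : ∃ M : ℕ, M = max (max T m0) (max m1 1) := ⟨_, rfl⟩
  refine ⟨N * M, fun t ht => ?_⟩
  obtain ⟨m, hm⟩ : ∃ m : ℕ, m = t / N := ⟨_, rfl⟩
  have hMm : M ≤ m := by
    rw [hm, Nat.le_div_iff_mul_le hN, mul_comm]
    exact ht
  have hm1' : m1 ≤ m := ((le_max_left _ _).trans (le_max_right _ _)).trans (hM ▸ hMm)
  have hm2 : 1 ≤ m := ((le_max_right _ _).trans (le_max_right _ _)).trans (hM ▸ hMm)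
  have hm3 : T ≤ m := ((le_max_left _ _).trans (le_max_left _ _)).trans (hM ▸ hMm)
  have hm4 : m0 ≤ m := ((le_max_right _ _).trans (le_max_left _ _)).trans (hM ▸ hMm)
  have ht1 : m * N ≤ t := by rw [hm]; exact Nat.div_mul_le_self t N
  have ht2 : t ≤ (m + 1) * N := by
    have h1 := Nat.lt_div_mul_add hN (a := t)
    rw [hm]
    have h2 : (t / N + 1) * N = t / N * N + N := by ring
    omega
  have hm0 : (0 : ℝ) < m := by exact_mod_cast hm2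
  have h1 : (t : ℝ) ^ n ≤ ((m + 1) * N) ^ n := by
    refine pow_le_pow_left₀ (Nat.cast_nonneg _) ?_ n
    exact_mod_cast ht2
  have h2 : κ * N ^ n * (1 + 1 / (m : ℝ)) ^ n < e ^ n + c1 := hm1 m hm1'
  have h3 : κ * ((m + 1) * N : ℝ) ^ n ≤ (e ^ n + c1) * m ^ n := by
    have e1 : κ * ((m + 1) * N : ℝ) ^ n = κ * N ^ n * (1 + 1 / (m : ℝ)) ^ n * m ^ n := by
      have e2 : ((m : ℝ) + 1) = (1 + 1 / m) * m := by field_simp
      rw [e2, mul_pow, mul_pow]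
      ring
    rw [e1]
    exact mul_le_mul_of_nonneg_right h2.le (by positivity)
  have h4 := h m hm4
  have h5 := hT m hm3
  have h6 := hT (m * e) (hm3.trans (Nat.le_mul_of_pos_right m he))
  have h7 := ha ht1
  push_cast at h6
  calc b * κ * t ^ n ≤ b * κ * ((m + 1) * N) ^ n :=
        mul_le_mul_of_nonneg_left h1 (mul_nonneg hb hκ0)
    _ = b * (κ * ((m + 1) * N : ℝ) ^ n) := by ring
    _ ≤ b * ((e ^ n + c1) * m ^ n) := mul_le_mul_of_nonneg_left h3 hb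
    _ = b * (m * e) ^ n + c1 * (b * m ^ n) := by ring
    _ ≤ a (m * e) + c1 * a m := add_le_add h6 (mul_le_mul_of_nonneg_left h5 hc1)
    _ ≤ a t := h4.trans h7

/-- **The liminf lemma.** A monotone function which grows like `t ^ n` cannot satisfy
`a (m (N - t0)) + c1 a m ≤ a (m N)` for all large `m` if `c1 > N ^ n - (N - t0) ^ n`
(here `e = N - t0`). -/
theorem exists_large_lt {a : ℕ → ℝ} (ha : Monotone a) {n N e : ℕ} {c C c1 : ℝ}
    (hN : 0 < N) (he : 0 < e) (hc : 0 < c)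
    (hlo : ∃ T : ℕ, ∀ t, T ≤ t → c * t ^ n ≤ a t)
    (hup : ∃ T : ℕ, ∀ t, T ≤ t → a t ≤ C * t ^ n)
    (hc0 : 0 ≤ c1) (hc1 : (N : ℝ) ^ n < e ^ n + c1) (m0 : ℕ) :
    ∃ m, m0 ≤ m ∧ a (m * N) < a (m * e) + c1 * a m := by
  by_contra hcon
  push Not at hcon
  have hN' : (0 : ℝ) < (N : ℝ) ^ n := by positivity
  obtain ⟨κ, hκ1, hκ⟩ : ∃ κ : ℝ, 1 < κ ∧ κ * N ^ n < e ^ n + c1 := by
    have h1 : 1 < (e ^ n + c1) / (N : ℝ) ^ n := (one_lt_div hN').2 hc1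
    obtain ⟨κ, h2, h3⟩ := exists_between h1
    exact ⟨κ, h2, (lt_div_iff₀ hN').1 h3⟩
  have hall : ∀ j : ℕ, ∃ T : ℕ, ∀ t, T ≤ t → c * κ ^ j * t ^ n ≤ a t := by
    intro j
    induction j with
    | zero =>
      obtain ⟨T, hT⟩ := hlo
      exact ⟨T, fun t ht => by rw [pow_zero, mul_one]; exact hT t ht⟩
    | succ j ih =>
      obtain ⟨T, hT⟩ := liminf_step ha hN he hc0 hcon hκ (by linarith)
        (by positivity : 0 ≤ c * κ ^ j) ih
      exact ⟨T, fun t ht => by rw [pow_succ, ← mul_assoc]; exact hT t ht⟩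
  obtain ⟨T, hT⟩ := hup
  obtain ⟨j, hj⟩ := pow_unbounded_of_one_lt (C / c) hκ1
  obtain ⟨T', hT'⟩ := hall j
  have h1 := hT (max T (max T' 1)) (le_max_left _ _)
  have h2 := hT' (max T (max T' 1)) ((le_max_left _ _).trans (le_max_right _ _))
  have h3 : (0 : ℝ) < ((max T (max T' 1) : ℕ) : ℝ) ^ n := by
    have : (1 : ℕ) ≤ max T (max T' 1) := (le_max_right _ _).trans (le_max_right _ _)
    have h4 : (0 : ℝ) < ((max T (max T' 1) : ℕ) : ℝ) := by exact_mod_cast this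
    positivity
  have h4 : c * κ ^ j ≤ C := le_of_mul_le_mul_right (h2.trans h1) h3
  rw [div_lt_iff₀ hc] at hj
  linarith

/-- Version with natural numbers. -/
theorem exists_large_lt_nat {a : ℕ → ℕ} (ha : Monotone a) {n N t0 c1 : ℕ} {c C : ℝ}
    (ht0 : t0 < N) (hc : 0 < c)
    (hlo : ∃ T : ℕ, ∀ t, T ≤ t → c * t ^ n ≤ a t)
    (hup : ∃ T : ℕ, ∀ t, T ≤ t → (a t : ℝ) ≤ C * t ^ n)
    (hc1 : N ^ n < (N - t0) ^ n + c1) (m0 : ℕ) :
    ∃ m, m0 ≤ m ∧ a (m * N) < a (m * (N - t0)) + c1 * a m := by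
  obtain ⟨m, hm, h⟩ := exists_large_lt (a := fun t => (a t : ℝ))
    (fun x y hxy => Nat.cast_le.2 (ha hxy)) (n := n) (N := N) (e := N - t0) (c1 := (c1 : ℝ))
    (by omega) (by omega) hc hlo hup (Nat.cast_nonneg _) (by exact_mod_cast hc1) m0
  exact ⟨m, hm, by exact_mod_cast h⟩

end Pool.Agent.ALL
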