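import Mathlib

/-!
# ALLDEFECT, block 4, row R44c: only finitely many `m` have a local degree `> 2^n n!`
-/

set_option autoImplicit false

namespace Pool.Agent.ALL

/-- One value of `m` with too large a local degree raises the lower bound of `a t / t ^ n`. -/
theorem rho_step {n q m : ℕ} {a : ℕ → ℕ} (ha : Monotone a) (hm : 1 ≤ m) {x y : ℝ} (hx : 0 < x)
    (ham : x * (m : ℝ) ^ n ≤ a m) (hy0 : 0 < y)
    (hy : y * (2 ^ n * n.factorial) < x * q) {c : ℕ}
    (hc : ∀ s > c, a m * (q * (s - c - 1 + n).choose n) ≤ a (m * (2 * s - 1))) :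
    ∃ T : ℕ, ∀ t : ℕ, T ≤ t → y * (t : ℝ) ^ n ≤ a t := by
  have hm' : (0 : ℝ) < m := by exact_mod_cast hm
  have hf : (0 : ℝ) < n.factorial := by exact_mod_cast n.factorial_pos
  have h2f : (0 : ℝ) < 2 ^ n * n.factorial := by positivity
  have hxq : 0 < x * q := lt_trans (by positivity) hy
  set θ : ℝ := y * (2 ^ n * n.factorial) / (x * q) with hθ
  have hθ1 : θ < 1 := by rw [hθ, div_lt_one hxq]; exact hy
  set c' : ℕ := m + 2 * m * c with hc'
  have hlim : Filter.Tendsto (fun t : ℕ => (((t : ℝ) - c') / t) ^ n) Filter.atTop (nhds 1) := by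
    have h : Filter.Tendsto (fun t : ℕ => ((t : ℝ) - c') / t) Filter.atTop (nhds 1) := by
      have h1 : Filter.Tendsto (fun t : ℕ => 1 - (c' : ℝ) / t) Filter.atTop (nhds (1 - 0)) :=
        tendsto_const_nhds.sub (tendsto_const_div_atTop_nhds_zero_nat (c' : ℝ))
      rw [sub_zero] at h1
      refine h1.congr' ?_
      filter_upwards [Filter.eventually_gt_atTop 0] with t ht
      have : (t : ℝ) ≠ 0 := by exact_mod_cast ht.ne'
      field_simp
    simpa using h.pow n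
  obtain ⟨T₀, hT₀⟩ := (hlim.eventually (lt_mem_nhds hθ1)).exists_forall_of_atTop
  refine ⟨max T₀ (m * (2 * c + 2)), fun t ht => ?_⟩
  have ht0 : T₀ ≤ t := (le_max_left _ _).trans ht
  have ht1 : m * (2 * c + 2) ≤ t := (le_max_right _ _).trans ht
  have hθt := hT₀ t ht0
  -- the number `s`
  set s : ℕ := (t / m + 1) / 2 with hs
  have hd1 : 2 * c + 2 ≤ t / m := by
    rw [Nat.le_div_iff_mul_le hm, mul_comm]; exact ht1
  have hsc : c < s := by omega
  have hs1 : 2 * s - 1 ≤ t / m := by omega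
  have hs2 : t / m < 2 * s + 1 := by omega
  have hms : m * (2 * s - 1) ≤ t := by
    calc m * (2 * s - 1) ≤ m * (t / m) := Nat.mul_le_mul_left _ hs1
      _ ≤ t := Nat.mul_div_le t m
  have hms2 : t < m * (2 * s + 1) := by
    rw [mul_comm]; exact (Nat.div_lt_iff_lt_mul hm).1 hs2
  have key := (hc s hsc).trans (ha hms)
  have hbin : (s - c) ^ n ≤ n.factorial * (s - c - 1 + n).choose n := by
    obtain ⟨u, hu⟩ : ∃ u, s - c = u + 1 := ⟨s - c - 1, by omega⟩
    rw [hu, Nat.add_sub_cancel, ← Nat.ascFactorial_eq_factorial_mul_choose]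
    exact Nat.pow_succ_le_ascFactorial (u + 1) n
  have hcast : ((s - c : ℕ) : ℝ) = (s : ℝ) - c := by rw [Nat.cast_sub hsc.le]
  have h1 : ((s : ℝ) - c) ^ n ≤ n.factorial * ((s - c - 1 + n).choose n : ℝ) := by
    rw [← hcast]; exact_mod_cast hbin
  have h2 : (a m : ℝ) * (q * ((s - c - 1 + n).choose n : ℝ)) ≤ a t := by exact_mod_cast key
  have hq0 : (0 : ℝ) ≤ q := Nat.cast_nonneg _
  -- `t - c' ≤ 2 m (s - c)`
  have h3 : (t : ℝ) - c' ≤ 2 * m * ((s : ℝ) - c) := by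
    have h4 : (t : ℝ) ≤ m * (2 * s + 1) := by exact_mod_cast hms2.le
    have h5 : (c' : ℝ) = m + 2 * m * c := by rw [hc']; push_cast; ring
    rw [h5]
    nlinarith
  have h6 : (0 : ℝ) ≤ (t : ℝ) - c' := by
    have h7 : c' ≤ t := by
      have : m + 2 * m * c ≤ m * (2 * c + 2) := by nlinarith
      omega
    have : (c' : ℝ) ≤ t := by exact_mod_cast h7
    linarith
  have h8 : ((t : ℝ) - c') ^ n ≤ (2 * m) ^ n * ((s : ℝ) - c) ^ n := by
    rw [← mul_pow]
    exact pow_le_pow_left₀ h6 h3 n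
  have htpos : (0 : ℝ) < t := by
    have : 0 < t := by
      have : 0 < m * (2 * c + 2) := by positivity
      omega
    exact_mod_cast this
  have h9 : θ * (t : ℝ) ^ n ≤ ((t : ℝ) - c') ^ n := by
    rw [div_pow, lt_div_iff₀ (by positivity)] at hθt
    exact hθt.le
  have h10 : y * (t : ℝ) ^ n = x * q / (2 ^ n * n.factorial) * (θ * (t : ℝ) ^ n) := by
    rw [hθ]
    have h11 : (q : ℝ) ≠ 0 := by
      rintro h
      rw [h, mul_zero] at hxq
      exact lt_irrefl _ hxq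
    have h12 := hx.ne'
    field_simp
  have hsn : (0 : ℝ) ≤ ((s : ℝ) - c) ^ n := by
    rw [← hcast]; positivity
  calc y * (t : ℝ) ^ n = x * q / (2 ^ n * n.factorial) * (θ * (t : ℝ) ^ n) := h10
    _ ≤ x * q / (2 ^ n * n.factorial) * ((2 * m) ^ n * ((s : ℝ) - c) ^ n) := by
        refine mul_le_mul_of_nonneg_left (h9.trans h8) ?_
        positivity
    _ = (x * (m : ℝ) ^ n) * (q * (((s : ℝ) - c) ^ n / n.factorial)) := by
        rw [mul_pow]
        field_simp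
    _ ≤ (a m : ℝ) * (q * ((s - c - 1 + n).choose n : ℝ)) := by
        refine mul_le_mul ham ?_ ?_ (Nat.cast_nonneg _)
        · refine mul_le_mul_of_nonneg_left ?_ hq0
          rw [div_le_iff₀ hf]
          linarith
        · positivity
    _ ≤ a t := h2

/-- R44c: only finitely many `m` have a local degree `> 2^n n!`. -/
theorem liminf_rho {n : ℕ} (a : ℕ → ℕ) (ha : Monotone a)
    (hlow : ∃ c : ℝ, 0 < c ∧ ∀ t : ℕ, c * (t : ℝ) ^ n ≤ a t)
    (hup : ∃ C : ℕ, ∀ t, a t ≤ C * (t + 1) ^ n) :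
    ∃ m₁, ∀ m ≥ m₁, ¬ ∃ c : ℕ, ∀ s > c,
      a m * ((2 ^ n * n.factorial + 1) * (s - c - 1 + n).choose n) ≤ a (m * (2 * s - 1)) := by
  obtain ⟨c₀, hc₀, hlow⟩ := hlow
  obtain ⟨C, hup⟩ := hup
  set S : Set ℝ := {x | ∃ T : ℕ, ∀ t : ℕ, T ≤ t → x * (t : ℝ) ^ n ≤ a t} with hS
  have hSne : c₀ ∈ S := ⟨0, fun t _ => hlow t⟩
  have hSbd : BddAbove S := by
    refine ⟨C * 2 ^ n, fun x hx => ?_⟩
    obtain ⟨T, hT⟩ := hx
    have h1 := hT (T + 1) (Nat.le_succ T)
    have h2 : (a (T + 1) : ℝ) ≤ C * ((T + 1 : ℕ) + 1) ^ n := by exact_mod_cast hup (T + 1)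
    have h3 : (0 : ℝ) < ((T + 1 : ℕ) : ℝ) := by positivity
    have h4 : (0 : ℝ) < ((T + 1 : ℕ) : ℝ) ^ n := by positivity
    have h5 : (((T + 1 : ℕ) : ℝ) + 1) ^ n ≤ 2 ^ n * ((T + 1 : ℕ) : ℝ) ^ n := by
      rw [← mul_pow]
      refine pow_le_pow_left₀ (by positivity) ?_ n
      have : (1 : ℝ) ≤ ((T + 1 : ℕ) : ℝ) := by push_cast; linarith [Nat.cast_nonneg (α := ℝ) T]
      linarith
    have h6 : x * ((T + 1 : ℕ) : ℝ) ^ n ≤ (C * 2 ^ n) * ((T + 1 : ℕ) : ℝ) ^ n := by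
      refine h1.trans (h2.trans ?_)
      rw [mul_assoc]
      exact mul_le_mul_of_nonneg_left h5 (Nat.cast_nonneg _)
    exact le_of_mul_le_mul_right h6 h4
  set lam := sSup S with hlam
  have hlam0 : 0 < lam := hc₀.trans_le (le_csSup hSbd hSne)
  set q : ℕ := 2 ^ n * n.factorial with hq
  have hq1 : (0 : ℝ) < q := by
    have : 0 < q := by rw [hq]; positivity
    exact_mod_cast this
  -- `x ∈ S` with `lam q < x (q + 1)`
  have hlt : lam * q / (q + 1) < lam := by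
    rw [div_lt_iff₀ (by linarith)]
    nlinarith
  obtain ⟨x, hxS, hx⟩ := exists_lt_of_lt_csSup ⟨c₀, hSne⟩ hlt
  rw [div_lt_iff₀ (by linarith)] at hx
  have hx0 : 0 < x := by
    by_contra hcon
    rw [not_lt] at hcon
    have h1 : 0 < lam * q := by positivity
    nlinarith
  obtain ⟨T, hT⟩ := hxS
  refine ⟨T + 1, fun m hm ⟨c, hc⟩ => ?_⟩
  -- `y` with `lam < y`, `y q < x (q + 1)`
  have hlt2 : lam < x * (q + 1) / q := by
    rw [lt_div_iff₀ hq1]; exact hx
  obtain ⟨y, hy1, hy2⟩ := exists_between hlt2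
  rw [lt_div_iff₀ hq1] at hy2
  have hyS : y ∈ S := by
    refine rho_step (q := q + 1) ha (by omega) hx0 (hT m (by omega)) (hlam0.trans hy1) ?_ hc
    have : (q : ℝ) = 2 ^ n * n.factorial := by rw [hq]; push_cast; ring
    rw [← this]
    push_cast
    exact hy2
  have := le_csSup hSbd hyS
  linarith

end Pool.Agent.ALL
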